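import Pool.Agent.K9h12.VG.Cur
import Pool.Agent.K9h12.SH.Halg

/-!
Subvarieties of dimension at least two, and all subvarieties.
-/

set_option autoImplicit false

open FF Polynomial

namespace Pool.Agent.K9h12.VG

open Pool.Agent.W603.LV Pool.Agent.W602.GT Pool.Agent.K9h12.SH

variable {L : Type} [Field L] [Algebra ℂ L]

/-- a constant which is not the value of `x` -/
theorem exists_unit (P : Place ℂ L) {x : L} (hx : ∀ c : ℂ, x ≠ algebraMap ℂ L c)
    (hreg : Ge P 0 x) : ∃ α : ℂ, P.ord (x - algebraMap ℂ L α) = 0 := by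
  have hge : ∀ c : ℂ, 0 ≤ P.ord (x - algebraMap ℂ L c) := fun c =>
    (hreg.sub (Ge.const c)).resolve_left (sub_ne_zero.2 (hx c))
  rcases (hge 0).eq_or_lt with h1 | h1
  · exact ⟨0, h1.symm⟩
  · refine ⟨1, ?_⟩
    have h2 : x - algebraMap ℂ L 1 = algebraMap ℂ L (-1) + (x - algebraMap ℂ L 0) := by
      simp only [map_neg, map_one, map_zero]
      ring
    rw [h2, (P.ord_add_eq ((_root_.map_ne_zero _).2 (by norm_num)) (sub_ne_zero.2 (hx 0)) (by
      rw [P.ord_const (by norm_num)]; exact h1)).2, P.ord_const (by norm_num)]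

/-- the data of a coordinate -/
theorem coord (P : Place ℂ L) {A : ℂ[X]} (hA : A.Separable) {n : ℕ}
    (hn : A.natDegree ≤ n ∧ n ≤ A.natDegree + 1) {j : ℕ} (hj : j + 4 ≤ n) {x : L}
    (hx : ∀ c : ℂ, x ≠ algebraMap ℂ L c) : ∃ (α : ℂ) (ν e : ℤ),
      P.ord (x - algebraMap ℂ L α) = ν ∧ Ge P e (x ^ j / aeval x A) ∧ 0 ≤ ct A n P x ∧
      ct A n P x ≤ 2 * ν + e ∧ (ct A n P x = 0 → (Ge P 0 x ∧ ν = 0 ∧ 0 ≤ e) ∨ 2 ≤ 2 * ν + e) := by
  have hA0 := hA.ne_zero
  have hx0 : x ≠ 0 := fun h0 => hx 0 (by rw [h0, map_zero])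
  have ha := ord_poly P hx hA0
  have hG : Ge P (P.ord (x ^ j / aeval x A)) (x ^ j / aeval x A) := ge_ord P _
  rw [P.ord_div (pow_ne_zero _ hx0) ha.1, P.ord_pow] at hG
  by_cases hreg : Ge P 0 x
  · rw [ct_reg hreg]
    have hge : ∀ c : ℂ, 0 ≤ P.ord (x - algebraMap ℂ L c) := fun c =>
      (hreg.sub (Ge.const c)).resolve_left (sub_ne_zero.2 (hx c))
    have hi0 : 0 ≤ (j : ℤ) * P.ord x := mul_nonneg (Int.natCast_nonneg j) (hreg.resolve_left hx0)
    have hA1 : 0 ≤ P.ord (aeval x A) := by
      rw [ha.2]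
      refine Multiset.sum_nonneg fun t ht => ?_
      obtain ⟨c, -, rfl⟩ := Multiset.mem_map.1 ht
      exact hge c
    rcases hA1.eq_or_lt with h0 | h0
    · obtain ⟨α, hα⟩ := exists_unit P hx hreg
      exact ⟨α, 0, _, hα, hG, by omega, by omega, fun _ => Or.inl ⟨hreg, rfl, by omega⟩⟩
    · obtain ⟨α, hα⟩ : ∃ α ∈ A.roots, 0 < P.ord (x - algebraMap ℂ L α) := by
        by_contra hcon
        push Not at hcon
        have h1 : (A.roots.map fun c => P.ord (x - algebraMap ℂ L c)).sum ≤ 0 := by
          have h2 : ∀ t ∈ A.roots.map fun c => P.ord (x - algebraMap ℂ L c), t ≤ 0 := by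
            intro t ht
            obtain ⟨c, hc, rfl⟩ := Multiset.mem_map.1 ht
            exact hcon c hc
          have h3 : ∀ s : Multiset ℤ, (∀ t ∈ s, t ≤ 0) → s.sum ≤ 0 := by
            intro s
            induction s using Multiset.induction_on with
            | empty => simp
            | cons a s ih =>
              intro h4
              rw [Multiset.sum_cons]
              have h5 := h4 a (Multiset.mem_cons_self a s)
              have h6 := ih fun t ht => h4 t (Multiset.mem_cons_of_mem ht)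
              omega
          exact h3 _ h2
        rw [ha.2] at h0
        omega
      have e1 := ord_poly_fin P hx hA0 (c := α) rfl hα.2
      have hmul : A.rootMultiplicity α = 1 := by
        have h1 : A.rootMultiplicity α ≤ 1 := rootMultiplicity_le_one_of_separable hA α
        have h2 := (rootMultiplicity_pos hA0).2 (isRoot_of_mem_roots hα.1)
        omega
      rw [hmul, Nat.cast_one, one_mul] at e1
      exact ⟨α, P.ord (aeval x A), _, e1.symm, hG, by omega, by omega, fun h => by omega⟩
  · rw [ct_pole hreg]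
    obtain ⟨ρ, hρ⟩ : ∃ ρ, P.ord x = -ρ := ⟨-P.ord x, by ring⟩
    have hρ0 : 0 < ρ := by
      by_contra h1
      exact hreg (Or.inr (by omega))
    have e1 := ord_poly_inf P hx hA0 hρ hρ0
    obtain ⟨k, hk⟩ : ∃ k : ℤ, (n : ℤ) - A.natDegree = k := ⟨_, rfl⟩
    have hk0 : 0 ≤ k ∧ k ≤ 1 := by omega
    have hjn : (j : ℤ) + 4 ≤ A.natDegree + k := by
      rw [← hk]
      have : ((j + 4 : ℕ) : ℤ) ≤ n := by exact_mod_cast hj
      push_cast at this
      omega
    rw [hk, hρ, neg_neg]
    rw [e1, hρ] at hG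
    refine ⟨0, -ρ, _, by rw [map_zero, sub_zero, hρ], hG, mul_nonneg hk0.1 hρ0.le, ?_, fun h => ?_⟩
    · nlinarith
    · right
      rcases (by omega : k = 0 ∨ k = 1) with rfl | rfl
      · nlinarith
      · omega

/-- the determinant -/
theorem det_shift {d : ℕ} (D : Fin d → Derivation ℂ L L) (x : Fin d → L) (α : Fin d → ℂ)
    (hx : ∀ j, x j - algebraMap ℂ L (α j) ≠ 0) :
    (Matrix.of fun i j => D i (x j)).det = (∏ j, (x j - algebraMap ℂ L (α j))) *
      (Matrix.of fun i j => D i (x j - algebraMap ℂ L (α j)) /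
        (x j - algebraMap ℂ L (α j))).det := by
  rw [← Matrix.det_mul_row]
  congr 1
  ext i j
  have h := hx j
  simp only [Matrix.of_apply, map_sub, Derivation.map_algebraMap, sub_zero]
  field_simp

/-- **Dimension at least two.** -/
theorem high {d : ℕ} (hd : 2 ≤ d) {A : Fin d → ℂ[X]} (hA : ∀ i, (A i).Separable) {n : Fin d → ℕ}
    (hn : ∀ i, (A i).natDegree ≤ n i ∧ n i ≤ (A i).natDegree + 1) (h5 : ∀ i, 5 ≤ n i)
    {x : Fin d → L} (hx : IsTranscendenceBasis ℂ x) {Bd : Place ℂ L → Prop}
    (hst : ∀ P, ¬ Bd P → ∀ i j, i ≠ j → ct (A i) (n i) P (x i) + ct (A j) (n j) P (x j) ≠ 1) :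
    LogGeneralType ℂ L d Bd := by
  classical
  have htr : ∀ j, Transcendental ℂ (x j) := fun j => hx.1.transcendental j
  have hc : ∀ j (c : ℂ), x j ≠ algebraMap ℂ L c := fun j c h => htr j (by
    rw [h]; exact isAlgebraic_algebraMap c)
  have hAx : ∀ j, aeval (x j) (A j) ≠ 0 := fun j h0 => htr j ⟨_, (hA j).ne_zero, h0⟩
  have hx0 : ∀ j, x j ≠ 0 := fun j h0 => hc j 0 (by rw [h0, map_zero])
  let E : Fin (d + 1) → Fin d → ℕ := fun l i => if l = i.succ then 1 else 0
  have hE : ∀ l i, E l i ≤ 1 := fun l i => by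
    simp only [E]
    split_ifs <;> omega
  let g : Fin (d + 1) → L := fun l => ∏ i, (x i ^ E l i / aeval (x i) (A i))
  have key : ∀ (P : Place ℂ L) (l : Fin (d + 1)), LogAt P (form x 2 (g l)) ∧
      ((∀ i j, i ≠ j → ct (A i) (n i) P (x i) + ct (A j) (n j) P (x j) ≠ 1) →
        RegAt P (form x 2 (g l))) := by
    intro P l
    choose α ν e h1 h2 h3 h4 h5 using fun i => coord P (hA i) (hn i) (j := E l i)
      (by have := hE l i; have := h5 i; omega) (hc i)
    have hne : ∀ i, x i - algebraMap ℂ L (α i) ≠ 0 := fun i => sub_ne_zero.2 (hc i _)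
    have g1 : Ge P (∑ i, ν i) (∏ i, (x i - algebraMap ℂ L (α i))) :=
      Ge.prod Finset.univ _ _ fun i _ => Or.inr (h1 i).ge
    have g2 : Ge P (∑ i, e i) (g l) := Ge.prod Finset.univ _ _ fun i _ => h2 i
    have hsum : ∑ i, (2 * ν i + e i) = 2 * ∑ i, ν i + ∑ i, e i := by
      rw [Finset.sum_add_distrib, Finset.mul_sum]
    have hnn : ∀ i, 0 ≤ 2 * ν i + e i := fun i => (h3 i).trans (h4 i)
    refine ⟨fun D hD => ?_, fun hs D hD => ?_⟩
    · change Ge P 0 _
      unfold form
      have g3 : Ge P 0 (Matrix.of fun i j => D i (x j - algebraMap ℂ L (α j)) /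
          (x j - algebraMap ℂ L (α j))).det := by
        refine ge_det P _ 0 (fun _ _ => 0) (fun i j => ?_) fun σ => by simp
        exact ge_logder_log (hD i) _
      rw [det_shift D x α hne]
      have g4 := (g1.mul g3).pow 2
      have h6 : 0 ≤ ∑ i, (2 * ν i + e i) := Finset.sum_nonneg fun i _ => hnn i
      exact (g2.mul g4).mono (by push_cast; omega)
    · change Ge P 0 _
      unfold form
      by_cases hS : 2 ≤ ∑ i, (2 * ν i + e i)
      · have g3 : Ge P (-1) (Matrix.of fun i j => D i (x j - algebraMap ℂ L (α j)) /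
            (x j - algebraMap ℂ L (α j))).det := det_log D hD _ hne
        rw [det_shift D x α hne]
        have g4 := (g1.mul g3).pow 2
        exact (g2.mul g4).mono (by push_cast; omega)
      · have hle : ∀ i, 2 * ν i + e i ≤ ∑ i, (2 * ν i + e i) := fun i =>
          Finset.single_le_sum (fun i _ => hnn i) (Finset.mem_univ i)
        have hc0 : ∀ i, ct (A i) (n i) P (x i) = 0 := by
          intro i
          by_contra hne0
          obtain ⟨j, hj⟩ : ∃ j : Fin d, j ≠ i := by
            by_cases hi : (i : ℕ) = 0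
            · exact ⟨⟨1, by omega⟩, fun h => by rw [← h] at hi; simp at hi⟩
            · exact ⟨⟨0, by omega⟩, fun h => hi (by rw [← h])⟩
          have h6 : ct (A i) (n i) P (x i) + ct (A j) (n j) P (x j) ≤
              ∑ i, ct (A i) (n i) P (x i) := by
            rw [← Finset.sum_pair (f := fun k => ct (A k) (n k) P (x k)) hj.symm]
            exact Finset.sum_le_sum_of_subset_of_nonneg (Finset.subset_univ _)
              fun k _ _ => h3 k
          have h7 : ∑ i, ct (A i) (n i) P (x i) ≤ ∑ i, (2 * ν i + e i) :=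
            Finset.sum_le_sum fun k _ => h4 k
          have h8 := hs i j hj.symm
          have h9 := h3 i
          have h10 := h3 j
          omega
        have hreg : ∀ i, Ge P 0 (x i) ∧ ν i = 0 ∧ 0 ≤ e i := fun i =>
          (h5 i (hc0 i)).resolve_right (by have := hle i; omega)
        have g6 : Ge P 0 (Matrix.of fun i j => D i (x j)).det := by
          refine ge_det P _ 0 (fun _ _ => 0) (fun i j => ?_) fun σ => by simp
          exact hD i (x j) (hreg j).1
        have h11 : 0 ≤ ∑ i, e i := Finset.sum_nonneg fun i _ => (hreg i).2.2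
        exact (g2.mul (g6.pow 2)).mono (by push_cast; omega)
  refine ⟨?_, 2, by norm_num, fun l => form x 2 (g l), fun l => form_pluri _ _ _,
    fun P _ l => (key P l).1, fun P _ hP l => (key P l).2 (hst P hP), ?_⟩
  · rw [← hx.cardinalMk_eq_trdeg]
    simp
  · choose D hD using fun i : Fin d => exists_der x hx fun j => if i = j then (1 : L) else 0
    have hdet : (Matrix.of fun i j => D i (x j)).det = 1 := by
      have : (Matrix.of fun i j => D i (x j)) = (1 : Matrix (Fin d) (Fin d) L) := by
        ext i j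
        rw [Matrix.of_apply, hD, Matrix.one_apply]
      rw [this, Matrix.det_one]
    have hg0 : ∀ l, g l ≠ 0 := fun l => Finset.prod_ne_zero_iff.2 fun i _ =>
      div_ne_zero (pow_ne_zero _ (hx0 i)) (hAx i)
    refine ⟨D, ?_, ?_⟩
    · change g 0 * (Matrix.of fun i j => D i (x j)).det ^ 2 ≠ 0
      rw [hdet, one_pow, mul_one]
      exact hg0 0
    · have h1 : (fun i : Fin d => form x 2 (g i.succ) D / form x 2 (g 0) D) = x := by
        funext i
        unfold form
        rw [hdet, one_pow, mul_one, mul_one, div_eq_iff (hg0 0)]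
        have h2 : g i.succ = ∏ k, ((if k = i then x i else 1) * (x k ^ E 0 k / aeval (x k) (A k))) := by
          refine Finset.prod_congr rfl fun k _ => ?_
          simp only [E, Fin.succ_inj, (Fin.succ_ne_zero k).symm, if_false, pow_zero]
          by_cases hk : k = i
          · subst hk
            simp
            ring
          · rw [if_neg (fun h => hk h.symm), if_neg hk, pow_zero, one_mul]
        rw [h2, Finset.prod_mul_distrib, Finset.prod_ite_eq' Finset.univ i fun _ => x i,
          if_pos (Finset.mem_univ i)]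
      rw [h1]
      exact hx.1

/-- **All subvarieties.** -/
theorem subv {m : ℕ} {A : Fin m → ℂ[X]} (hA : ∀ i, (A i).Separable) {n : Fin m → ℕ}
    (hn : ∀ i, (A i).natDegree ≤ n i ∧ n i ≤ (A i).natDegree + 1) (h5 : ∀ i, 5 ≤ n i)
    {i0 j0 : Fin m} (hij : i0 ≠ j0) (h6 : 6 ≤ n i0) (hmov : Movable (A i0) (A j0))
    (hess : Algebra.EssFiniteType ℂ L) {d : ℕ} {x : Fin m → L} {Bd : Place ℂ L → Prop}
    (hd : 0 < d) (htr : Algebra.trdeg ℂ L = d)
    (halg : Algebra.IsAlgebraic (IntermediateField.adjoin ℂ (Set.range x)) L)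
    (hne : ∀ i, aeval (x i) (A i) ≠ 0)
    (hst : ∀ P, ¬ Bd P → ∀ i j, i ≠ j → ct (A i) (n i) P (x i) + ct (A j) (n j) P (x j) ≠ 1) :
    LogGeneralType ℂ L d Bd := by
  have halg' : Algebra.IsAlgebraic (Algebra.adjoin ℂ (Set.range x)) L := by
    rw [← IntermediateField.isAlgebraic_adjoin_iff_top]
    exact halg
  rcases (by omega : d = 1 ∨ 2 ≤ d) with rfl | hd2
  · -- curves
    have : IsFF ℂ L := ⟨hess, by rw [htr]; simp⟩
    obtain ⟨s, hs⟩ := exists_isTranscendenceBasis ℂ L
    obtain ⟨D0, hD0⟩ := exists_der (fun i : s => (i : L)) hs fun _ => (1 : L)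
    have hD : D0 ≠ 0 := by
      rintro rfl
      have hne : s.Nonempty := by
        rw [Set.nonempty_iff_ne_empty]
        rintro rfl
        have h1 := hs.cardinalMk_eq_trdeg
        rw [htr] at h1
        simp at h1
      obtain ⟨t, ht⟩ := hne
      exact zero_ne_one (hD0 ⟨t, ht⟩)
    have hconst : ∀ f, D0 f = 0 → ∃ c : ℂ, f = algebraMap ℂ L c := by
      intro f hf
      by_contra hcon
      have ht : Transcendental ℂ f := fun h => hcon (const_of_algebraic h)
      exact der_ne_zero hD ht hf
    by_cases hall : ∀ i, D0 (x i) ≠ 0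
    · exact cur_pair (hA i0) (hA j0) (hn i0) (hn j0) h6 (h5 j0) hmov (hall i0) (hall j0)
        fun P hP => hst P hP i0 j0 hij
    · push Not at hall
      obtain ⟨k, hk⟩ := hall
      obtain ⟨c, hc⟩ := hconst _ hk
      obtain ⟨i, hi⟩ : ∃ i, D0 (x i) ≠ 0 := by
        by_contra hcon
        push Not at hcon
        refine hD (der_eq_zero D0 (Set.range x) halg ?_)
        rintro _ ⟨j, rfl⟩
        exact hcon j
      have hik : i ≠ k := by
        rintro rfl
        exact hi hk
      refine cur_one (hA i) (hn i) (h5 i) hi fun P hP h1 => hst P hP i k hik ?_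
      have h2 : ct (A k) (n k) P (x k) = 0 := by
        have h3 := hne k
        rw [ct_reg (by rw [hc]; exact Ge.const c), hc, aeval_algebraMap_apply]
        rw [hc, aeval_algebraMap_apply] at h3
        refine P.ord_const fun h4 => h3 ?_
        rw [h4, map_zero]
      rw [h1, h2, add_zero]
  · obtain ⟨s, hs, hbas⟩ := exists_isTranscendenceBasis_subset (R := ℂ) (Set.range x)
    have hcard := hbas.cardinalMk_eq_trdeg
    rw [htr] at hcard
    obtain ⟨e⟩ : Nonempty (Fin d ≃ s) := by
      have h1 : Cardinal.mk (Fin d) = Cardinal.mk s := by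
        rw [hcard]
        simp
      exact Cardinal.eq.1 h1
    choose f hf using fun z : s => hs z.2
    have hι : Function.Injective fun l => f (e l) := by
      intro l l' h
      have h1 : ((e l : s) : L) = e l' := by
        rw [← hf (e l), ← hf (e l')]
        exact congrArg x h
      exact e.injective (Subtype.ext h1)
    have hx' : IsTranscendenceBasis ℂ (fun l => x (f (e l))) := by
      have h1 : (fun l => x (f (e l))) = fun l => ((e l : s) : L) := funext fun l => hf _
      rw [h1]
      exact hbas.comp_equiv e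
    exact high hd2 (fun l => hA (f (e l))) (fun l => hn (f (e l))) (fun l => h5 (f (e l))) hx'
      fun P hP l l' hll => hst P hP _ _ fun h => hll (hι h)

end Pool.Agent.K9h12.VG
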