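import Pool.Agent.K9h12.VG.Loc

/-!
Orders of contact with a finite subset of the projective line, and the first order differential
given by a derivation of the constants.
-/

set_option autoImplicit false

open FF Polynomial

namespace Pool.Agent.K9h12.VG

open Pool.Agent.W603.LV Pool.Agent.W602.GT Pool.Agent.K9h12.SH

variable {L : Type} [Field L] [Algebra ℂ L] {P : Place ℂ L}

open Classical in
/-- The order of contact at the place `P` of `x` with the roots of `A` in the projective line, where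
infinity is counted as a root if `n` is larger than the degree of `A`: the order of `A(x)` if `x` is
regular at `P`, and `n - deg A` times the order of the pole of `x` if not. -/
noncomputable def ct (A : ℂ[X]) (n : ℕ) (P : Place ℂ L) (x : L) : ℤ :=
  if P.Reg x then P.ord (aeval x A) else ((n : ℤ) - A.natDegree) * (-P.ord x)

theorem ct_reg {A : ℂ[X]} {n : ℕ} {x : L} (h : Ge P 0 x) : ct A n P x = P.ord (aeval x A) :=
  if_pos h

theorem ct_pole {A : ℂ[X]} {n : ℕ} {x : L} (h : ¬ Ge P 0 x) :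
    ct A n P x = ((n : ℤ) - A.natDegree) * (-P.ord x) := if_neg h

/-- the expression in the first derivatives -/
def sig (Δ : Derivation ℤ L L) (D : Derivation ℂ L L) (x y : L) : L := Δ x * D y - Δ y * D x

theorem sig_smul (Δ : Derivation ℤ L L) (c : L) (D : Derivation ℂ L L) (x y : L) :
    sig Δ (c • D) x y = c * sig Δ D x y := by
  unfold sig
  simp only [Derivation.smul_apply, smul_eq_mul]
  ring

/-- a derivation extending a derivation of the constants which preserves the orders at a place -/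
structure Lift (δ : Derivation ℤ ℂ ℂ) (P : Place ℂ L) (Δ : Derivation ℤ L L) : Prop where
  ext : ∀ c, Δ (algebraMap ℂ L c) = algebraMap ℂ L (δ c)
  ge : ∀ (n : ℤ) (f : L), Ge P n f → Ge P n (Δ f)

/-- local lifts -/
theorem exists_lift {D : Derivation ℂ L L} (h : Nice P D)
    (halg : ∀ π : L, P.ord π = 1 → Algebra.IsAlgebraic (Algebra.adjoin ℂ {π}) L)
    {δ : Derivation ℤ ℂ ℂ} {Δ : Derivation ℤ L L}
    (hΔ : ∀ c, Δ (algebraMap ℂ L c) = algebraMap ℂ L (δ c)) :
    ∃ Δ' : Derivation ℤ L L, Lift δ P Δ' ∧ ∀ x y, sig Δ D x y = sig Δ' D x y := by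
  obtain ⟨π, hπ, hDπ⟩ := h.uni
  have hπ0 : π ≠ 0 := by
    rintro rfl
    rw [P.ord_zero] at hπ; omega
  let D' : Derivation ℤ L L := Derivation.mk' (D : L →+ L).toIntLinearMap fun x y => D.leibniz x y
  have hD' : ∀ x, D' x = D x := fun x => rfl
  have e : ∀ x, (Δ - (Δ π) • D') x = Δ x - Δ π * D x := fun x => by
    rw [Derivation.sub_apply, Derivation.smul_apply, hD', smul_eq_mul]
  have hc : ∀ c, (Δ - (Δ π) • D') (algebraMap ℂ L c) = algebraMap ℂ L (δ c) := fun c => by
    rw [e, hΔ, D.map_algebraMap, mul_zero, sub_zero]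
  have hπ' : (Δ - (Δ π) • D') π = 0 := by
    rw [e, hDπ, mul_one, sub_self]
  refine ⟨Δ - (Δ π) • D', ⟨hc, fun n f hf => ?_⟩, fun x y => ?_⟩
  · have h1 : Ge P 0 (f / π ^ n) := by
      have := ge_div (zpow_ne_zero n hπ0) hf
      rwa [P.ord_zpow, hπ, mul_one, sub_self] at this
    have h2 := lift_reg h.res hπ (halg π hπ) hc hπ' h1
    have h3 : (Δ - (Δ π) • D') (π ^ n) = 0 := by
      rw [Derivation.leibniz_zpow, hπ', smul_zero, smul_zero]
    have h4 : (Δ - (Δ π) • D') f = π ^ n * (Δ - (Δ π) • D') (f / π ^ n) := by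
      conv_lhs => rw [show f = π ^ n * (f / π ^ n) by field_simp]
      rw [Derivation.leibniz, h3, smul_zero, add_zero, smul_eq_mul]
    rw [h4]
    have h5 := (ge_ord P (π ^ n)).mul h2
    rwa [P.ord_zpow, hπ, mul_one, add_zero] at h5
  · unfold sig
    rw [e, e]
    ring

/-- the orders of a coordinate at a place, near a fixed point -/
structure Fix (P : Place ℂ L) (D : Derivation ℂ L L) (Δ : Derivation ℤ L L) (x F : L) (τ c : ℤ) :
    Prop where
  c0 : 0 ≤ c
  d1 : Ge P (c - 1 - 2 * τ) (D x)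
  d0 : Ge P (-(2 * τ)) (D x)
  dl : Ge P (c - 2 * τ) (Δ x)
  f : Ge P (4 * τ - c) F

/-- the orders of a coordinate at a place, near a moving point -/
structure Mov (P : Place ℂ L) (D : Derivation ℂ L L) (Δ : Derivation ℤ L L) (x F : L) (τ c : ℤ) :
    Prop where
  c1 : 1 ≤ c
  d1 : Ge P (c - 1 - 2 * τ) (D x)
  dl : Ge P (-(2 * τ)) (Δ x)
  f : Ge P (4 * τ + c) F

variable {D : Derivation ℂ L L} {Δ : Derivation ℤ L L}

theorem fix_fix {x y F F' : L} {τ τ' c c' : ℤ} (h : Fix P D Δ x F τ c)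
    (h' : Fix P D Δ y F' τ' c') : Ge P (-1) (sig Δ D x y ^ 2 * (F * F')) ∧
      (c + c' ≠ 1 → Ge P 0 (sig Δ D x y ^ 2 * (F * F'))) := by
  have k0 := h.c0
  have k1 := h'.c0
  have a1 : Ge P (c + c' - 1 - 2 * τ - 2 * τ') (sig Δ D x y) :=
    ((h.dl.mul h'.d1).mono (by omega)).sub ((h'.dl.mul h.d1).mono (by omega))
  have a0 : Ge P (-(2 * τ) - 2 * τ') (sig Δ D x y) :=
    ((h.dl.mul h'.d0).mono (by omega)).sub ((h'.dl.mul h.d0).mono (by omega))
  have hF := h.f.mul h'.f
  by_cases hs : c + c' = 0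
  · have h1 := (a0.pow 2).mul hF
    refine ⟨h1.mono (by push_cast; omega), fun _ => h1.mono (by push_cast; omega)⟩
  · have h1 := (a1.pow 2).mul hF
    refine ⟨h1.mono (by push_cast; omega), fun h2 => h1.mono (by push_cast; omega)⟩

theorem mov_fix {x y F F' : L} {τ τ' c c' : ℤ} (h : Mov P D Δ x F τ c)
    (h' : Fix P D Δ y F' τ' c') : Ge P 0 (sig Δ D x y ^ 2 * (F * F')) := by
  have k0 := h.c1
  have k1 := h'.c0
  have hF := h.f.mul h'.f
  by_cases hs : c' = 0
  · have a0 : Ge P (-(2 * τ) - 2 * τ') (sig Δ D x y) :=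
      ((h.dl.mul h'.d0).mono (by omega)).sub ((h'.dl.mul h.d1).mono (by omega))
    exact ((a0.pow 2).mul hF).mono (by push_cast; omega)
  · have a1 : Ge P (c' - 1 - 2 * τ - 2 * τ') (sig Δ D x y) :=
      ((h.dl.mul h'.d1).mono (by omega)).sub ((h'.dl.mul h.d1).mono (by omega))
    exact ((a1.pow 2).mul hF).mono (by push_cast; omega)

/-- the constant term -/
theorem exists_center (h : Nice P D) {x : L} (hx : ∀ c : ℂ, x ≠ algebraMap ℂ L c)
    (hreg : Ge P 0 x) : ∃ (c : ℂ) (e : ℤ), 1 ≤ e ∧ P.ord (x - algebraMap ℂ L c) = e := by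
  obtain ⟨c, hc⟩ := h.res x hreg
  exact ⟨c, _, hc.resolve_left (sub_ne_zero.2 (hx c)), rfl⟩

theorem exists_fix (h : Nice P D) {δ : Derivation ℤ ℂ ℂ} (hL : Lift δ P Δ) {A : ℂ[X]}
    (hA : A.Separable) {n : ℕ} (hn : A.natDegree ≤ n ∧ n ≤ A.natDegree + 1)
    (hδ : ∀ a, A.IsRoot a → δ a = 0) {x : L} (hx : ∀ c : ℂ, x ≠ algebraMap ℂ L c) {j : ℕ}
    (hj : j + 4 ≤ n) : ∃ τ, Fix P D Δ x (x ^ j / aeval x A) τ (ct A n P x) := by
  have hA0 : A ≠ 0 := hA.ne_zero
  have hx0 : x ≠ 0 := fun h0 => hx 0 (by rw [h0, map_zero])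
  have hAx := (ord_poly P hx hA0).1
  have hf : Ge P (j * P.ord x - P.ord (aeval x A)) (x ^ j / aeval x A) := by
    have := ge_ord P (x ^ j / aeval x A)
    rwa [P.ord_div (pow_ne_zero _ hx0) hAx, P.ord_pow] at this
  by_cases hreg : Ge P 0 x
  · rw [ct_reg hreg]
    have hx1 : 0 ≤ (j : ℤ) * P.ord x :=
      mul_nonneg (Int.natCast_nonneg j) (hreg.resolve_left hx0)
    obtain ⟨c0, e, he, hc0⟩ := exists_center h hx hreg
    have hord := ord_poly_fin P hx hA0 hc0 (by omega)
    have hge : Ge P e (x - algebraMap ℂ L c0) := Or.inr hc0.ge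
    refine ⟨0, ?_⟩
    by_cases hr : A.IsRoot c0
    · have hm : A.rootMultiplicity c0 = 1 := by
        have h1 : A.rootMultiplicity c0 ≤ 1 := rootMultiplicity_le_one_of_separable hA c0
        have h2 := (rootMultiplicity_pos hA0).2 hr
        omega
      rw [hm, Nat.cast_one, one_mul] at hord
      have hDx : Ge P (e - 1) (D x) := by
        have := h.ge_der hge
        rwa [map_sub, D.map_algebraMap, sub_zero] at this
      refine ⟨by omega, hDx.mono (by omega), hDx.mono (by omega), ?_, hf.mono (by omega)⟩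
      have h1 := hL.ge _ _ hge
      rw [map_sub, hL.ext, hδ _ hr, map_zero, sub_zero] at h1
      exact h1.mono (by omega)
    · rw [rootMultiplicity_eq_zero hr, Nat.cast_zero, zero_mul] at hord
      have hDx := h.reg x hreg
      have hΔx := hL.ge _ _ hreg
      exact ⟨by omega, hDx.mono (by omega), hDx.mono (by omega), hΔx.mono (by omega),
        hf.mono (by omega)⟩
  · rw [ct_pole hreg]
    obtain ⟨ρ, hρ⟩ : ∃ ρ, P.ord x = -ρ := ⟨-P.ord x, by ring⟩
    have hρ0 : 0 < ρ := by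
      by_contra h1
      exact hreg (Or.inr (by omega))
    have hord := ord_poly_inf P hx hA0 hρ hρ0
    have hxg : Ge P (-ρ) x := Or.inr hρ.ge
    have hDx := h.ge_der hxg
    have hΔx := hL.ge _ _ hxg
    obtain ⟨k, hk⟩ : ∃ k : ℤ, (n : ℤ) - A.natDegree = k := ⟨_, rfl⟩
    have hk0 : 0 ≤ k ∧ k ≤ 1 := by omega
    have hkρ : 0 ≤ k * ρ ∧ k * ρ ≤ ρ := ⟨mul_nonneg hk0.1 hρ0.le, by nlinarith⟩
    have hjn : (j : ℤ) + 4 ≤ A.natDegree + k := by
      rw [← hk]
      have : ((j + 4 : ℕ) : ℤ) ≤ n := by exact_mod_cast hj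
      push_cast at this
      omega
    rw [hk, hρ, neg_neg]
    refine ⟨ρ, hkρ.1, hDx.mono (by omega), hDx.mono (by omega), hΔx.mono (by omega), hf.mono ?_⟩
    rw [hord, hρ]
    nlinarith

theorem exists_mov (h : Nice P D) {δ : Derivation ℤ ℂ ℂ} (hL : Lift δ P Δ) {A A' : ℂ[X]} {a : ℂ}
    (hA : A.Separable) (hA' : A = (X - C a) * A') {n : ℕ}
    (hn : A.natDegree ≤ n ∧ n ≤ A.natDegree + 1) (hδ : ∀ b, A'.IsRoot b → δ b = 0) {x : L}
    (hx : ∀ c : ℂ, x ≠ algebraMap ℂ L c) (h6 : 6 ≤ n) :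
    ∃ τ, Fix P D Δ x ((x - algebraMap ℂ L a) / aeval x A') τ (ct A n P x) ∨
      Mov P D Δ x ((x - algebraMap ℂ L a) / aeval x A') τ (ct A n P x) := by
  have hA0 : A ≠ 0 := hA.ne_zero
  have hA0' : A' ≠ 0 := by
    rintro rfl
    exact hA0 (by rw [hA', mul_zero])
  have hx0 : x ≠ 0 := fun h0 => hx 0 (by rw [h0, map_zero])
  have hAx := (ord_poly P hx hA0').1
  have hdeg : A.natDegree = A'.natDegree + 1 := by
    rw [hA', natDegree_mul (X_sub_C_ne_zero a) hA0', natDegree_X_sub_C, add_comm]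
  have hf : Ge P (P.ord (x - algebraMap ℂ L a) - P.ord (aeval x A'))
      ((x - algebraMap ℂ L a) / aeval x A') := by
    have := ge_ord P ((x - algebraMap ℂ L a) / aeval x A')
    rwa [P.ord_div (sub_ne_zero.2 (hx a)) hAx] at this
  have hmul : P.ord (aeval x A) = P.ord (x - algebraMap ℂ L a) + P.ord (aeval x A') := by
    rw [hA', map_mul, map_sub, aeval_X, aeval_C, P.ord_mul (sub_ne_zero.2 (hx a)) hAx]
  by_cases hreg : Ge P 0 x
  · rw [ct_reg hreg]
    obtain ⟨c0, e, he, hc0⟩ := exists_center h hx hreg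
    have hord := ord_poly_fin P hx hA0 hc0 (by omega)
    have hord' := ord_poly_fin P hx hA0' hc0 (by omega)
    have hge : Ge P e (x - algebraMap ℂ L c0) := Or.inr hc0.ge
    have hΔx := hL.ge _ _ hreg
    refine ⟨0, ?_⟩
    by_cases hr : A.IsRoot c0
    · have hm : A.rootMultiplicity c0 = 1 := by
        have h1 : A.rootMultiplicity c0 ≤ 1 := rootMultiplicity_le_one_of_separable hA c0
        have h2 := (rootMultiplicity_pos hA0).2 hr
        omega
      rw [hm, Nat.cast_one, one_mul] at hord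
      have hDx : Ge P (e - 1) (D x) := by
        have := h.ge_der hge
        rwa [map_sub, D.map_algebraMap, sub_zero] at this
      by_cases hca : c0 = a
      · right
        rw [hca] at hc0
        refine ⟨by omega, hDx.mono (by omega), hΔx.mono (by omega), hf.mono (by omega)⟩
      · left
        have hr' : A'.IsRoot c0 := by
          rw [hA'] at hr
          rcases root_mul.1 hr with h1 | h1
          · exact absurd (root_X_sub_C.1 h1).symm hca
          · exact h1
        have hm' : A'.rootMultiplicity c0 = 1 := by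
          have h1 := rootMultiplicity_mul (x := c0) (p := X - C a) (q := A') (by rwa [← hA'])
          rw [← hA', hm, rootMultiplicity_eq_zero (p := X - C a) (x := c0) (fun h2 =>
            hca (root_X_sub_C.1 h2).symm), zero_add] at h1
          exact h1.symm
        rw [hm', Nat.cast_one, one_mul] at hord'
        refine ⟨by omega, hDx.mono (by omega), hDx.mono (by omega), ?_, hf.mono (by omega)⟩
        have h1 := hL.ge _ _ hge
        rw [map_sub, hL.ext, hδ _ hr', map_zero, sub_zero] at h1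
        exact h1.mono (by omega)
    · left
      have hr' : ¬ A'.IsRoot c0 := fun h1 => hr (by rw [hA']; exact root_mul_left_of_isRoot _ h1)
      rw [rootMultiplicity_eq_zero hr, Nat.cast_zero, zero_mul] at hord
      rw [rootMultiplicity_eq_zero hr', Nat.cast_zero, zero_mul] at hord'
      have hDx := h.reg x hreg
      exact ⟨by omega, hDx.mono (by omega), hDx.mono (by omega), hΔx.mono (by omega),
        hf.mono (by omega)⟩
  · rw [ct_pole hreg]
    obtain ⟨ρ, hρ⟩ : ∃ ρ, P.ord x = -ρ := ⟨-P.ord x, by ring⟩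
    have hρ0 : 0 < ρ := by
      by_contra h1
      exact hreg (Or.inr (by omega))
    have hord := ord_poly_inf P hx hA0 hρ hρ0
    have hxa := ord_poly_inf P hx (X_sub_C_ne_zero a) hρ hρ0
    rw [natDegree_X_sub_C, map_sub, aeval_X, aeval_C] at hxa
    have hxg : Ge P (-ρ) x := Or.inr hρ.ge
    have hDx := h.ge_der hxg
    have hΔx := hL.ge _ _ hxg
    obtain ⟨k, hk⟩ : ∃ k : ℤ, (n : ℤ) - A.natDegree = k := ⟨_, rfl⟩
    have hk0 : 0 ≤ k ∧ k ≤ 1 := by omega
    have hkρ : 0 ≤ k * ρ ∧ k * ρ ≤ ρ := ⟨mul_nonneg hk0.1 hρ0.le, by nlinarith⟩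
    have hjn : 6 ≤ (A.natDegree : ℤ) + k := by omega
    rw [hk, hρ, neg_neg]
    refine ⟨ρ, Or.inl ⟨hkρ.1, hDx.mono (by omega), hDx.mono (by omega), hΔx.mono (by omega),
      hf.mono ?_⟩⟩
    rw [hmul, hxa] at hord
    rw [hxa, show P.ord (aeval x A') = -(A.natDegree * ρ) + ((1 : ℕ) : ℤ) * ρ by
      linear_combination hord]
    push_cast
    nlinarith

end Pool.Agent.K9h12.VG
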