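import Pool.Agent.K9h12.VG.Ct

/-!
Curves: one coordinate, and two coordinates with moving points.
-/

set_option autoImplicit false

open FF Polynomial

namespace Pool.Agent.K9h12.VG

open Pool.Agent.W603.LV Pool.Agent.W602.GT Pool.Agent.K9h12.SH

variable {L : Type} [Field L] [Algebra ℂ L]

theorem alg_of_trans [IsFF ℂ L] {t : L} (ht : Transcendental ℂ t) :
    Algebra.IsAlgebraic (Algebra.adjoin ℂ {t}) L := by
  have h3 := (IsFF.basis ht).isAlgebraic
  rwa [Set.range_const] at h3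

theorem trans_of_ord {P : Place ℂ L} {π : L} (hπ : P.ord π = 1) : Transcendental ℂ π := by
  intro h
  obtain ⟨c, rfl⟩ := const_of_algebraic h
  by_cases hc : c = 0
  · rw [hc, map_zero, P.ord_zero] at hπ
    omega
  · rw [P.ord_const hc] at hπ
    omega

theorem lift_zero (P : Place ℂ L) : Lift 0 P (0 : Derivation ℤ L L) :=
  ⟨fun c => by simp, fun n f _ => by rw [Derivation.zero_apply]; exact Ge.zero⟩

/-- **One coordinate.** -/
theorem cur_one [IsFF ℂ L] {A : ℂ[X]} (hA : A.Separable) {n : ℕ}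
    (hn : A.natDegree ≤ n ∧ n ≤ A.natDegree + 1) (h5 : 5 ≤ n) {x : L} {D0 : Derivation ℂ L L}
    (hx : D0 x ≠ 0) {Bd : Place ℂ L → Prop} (hst : ∀ P, ¬ Bd P → ct A n P x ≠ 1) :
    LogGeneralType ℂ L 1 Bd := by
  have tx := trans_of_der hx
  have hcx := const_of_eq hx
  have hx0 : x ≠ 0 := fun h0 => hcx 0 (by rw [h0, map_zero])
  have hAx : aeval x A ≠ 0 := fun h0 => tx ⟨_, hA.ne_zero, h0⟩
  have key : ∀ (P : Place ℂ L) (D : Derivation ℂ L L), Nice P D → ∀ j : Fin 2,
      Ge P (-2) (D x ^ 2 * (x ^ (j : ℕ) / aeval x A)) ∧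
      (ct A n P x ≠ 1 → Ge P 0 (D x ^ 2 * (x ^ (j : ℕ) / aeval x A))) := by
    intro P D hD j
    obtain ⟨τ, h⟩ := exists_fix hD (lift_zero P) hA hn (fun a _ => rfl) hcx (j := j)
      (by have := j.2; omega)
    have h0 := h.c0
    by_cases hc : ct A n P x = 0
    · have h1 := (h.d0.pow 2).mul h.f
      exact ⟨h1.mono (by push_cast; omega), fun _ => h1.mono (by push_cast; omega)⟩
    · have h1 := (h.d1.pow 2).mul h.f
      exact ⟨h1.mono (by push_cast; omega), fun _ => h1.mono (by push_cast; omega)⟩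
  refine curve_lgt Bd (N := 2) (by norm_num) (fun j D => D x ^ 2 * (x ^ (j : ℕ) / aeval x A))
    (fun j a D => ?_) D0 ?_ tx ?_ ?_ ?_
  · rw [Derivation.smul_apply, smul_eq_mul]
    ring
  · exact mul_ne_zero (pow_ne_zero _ hx) (div_ne_zero (pow_ne_zero _ hx0) hAx)
  · simp only [Fin.val_one, Fin.val_zero, pow_one, pow_zero]
    field_simp
  · intro P D hD j
    exact (key P D hD j).1.mono (by norm_num)
  · intro P hP D hD j
    exact (key P D hD j).2 (hst P hP)

/-- the expression does not vanish if `x` meets the moving point where `y` meets a fixed one -/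
theorem sig_ne {P : Place ℂ L} {D : Derivation ℂ L L} (h : Nice P D) {δ : Derivation ℤ ℂ ℂ}
    {Δ : Derivation ℤ L L} (hL : Lift δ P Δ) {x y : L} {a : ℂ} (ha : δ a = 1)
    (hx : Ge P 1 (x - algebraMap ℂ L a)) (hy : (∃ b, δ b = 0 ∧ y ≠ algebraMap ℂ L b ∧
      0 < P.ord (y - algebraMap ℂ L b)) ∨ P.ord y < 0) : sig Δ D x y ≠ 0 := by
  have hxr : Ge P 0 x := by
    have := (hx.mono (by omega : (0 : ℤ) ≤ 1)).add (Ge.const a)
    rwa [sub_add_cancel] at this
  have hDx := h.reg x hxr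
  -- the derivative of `x` is a unit
  have hΔx : Ge P 1 (Δ x - 1) := by
    have := hL.ge _ _ hx
    rwa [map_sub, hL.ext, ha, map_one] at this
  have hΔx1 : Δ x ≠ 0 ∧ P.ord (Δ x) = 0 := by
    by_cases h0 : Δ x - 1 = 0
    · rw [sub_eq_zero.1 h0]
      exact ⟨one_ne_zero, P.ord_one⟩
    · have h1 := P.ord_add_eq one_ne_zero h0 (by rw [P.ord_one]; exact hΔx.resolve_left h0)
      rw [add_sub_cancel, P.ord_one] at h1
      exact h1
  obtain ⟨e, hDy, hoy, hΔy⟩ : ∃ e : ℤ, D y ≠ 0 ∧ P.ord (D y) = e - 1 ∧ Ge P e (Δ y) := by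
    rcases hy with ⟨b, hb, hyb, ho⟩ | ho
    · have h1 := h.ord_der (sub_ne_zero.2 hyb) (by omega)
      rw [map_sub, D.map_algebraMap, sub_zero] at h1
      have h2 := hL.ge _ _ (ge_ord P (y - algebraMap ℂ L b))
      rw [map_sub, hL.ext, hb, map_zero, sub_zero] at h2
      exact ⟨_, h1.1, h1.2, h2⟩
    · have hy0 : y ≠ 0 := by
        rintro rfl
        rw [P.ord_zero] at ho
        omega
      have h1 := h.ord_der hy0 (by omega)
      exact ⟨_, h1.1, h1.2, hL.ge _ _ (ge_ord P y)⟩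
  have h1 : Δ x * D y ≠ 0 := mul_ne_zero hΔx1.1 hDy
  have h2 : P.ord (Δ x * D y) = e - 1 := by rw [P.ord_mul hΔx1.1 hDy, hΔx1.2, hoy]; ring
  intro h0
  have h3 : Δ x * D y = Δ y * D x := sub_eq_zero.1 h0
  have h4 := (hΔy.mul hDx).resolve_left (by rw [← h3]; exact h1)
  rw [← h3, h2] at h4
  omega

/-- the points of `A` can be moved one by one, with `B` fixed -/
def Movable (A B : ℂ[X]) : Prop := ∀ a, A.IsRoot a → ∃ δ : Derivation ℤ ℂ ℂ, δ a = 1 ∧
  (∀ b, A.IsRoot b → b ≠ a → δ b = 0) ∧ ∀ b, B.IsRoot b → δ b = 0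

/-- **Two coordinates.** -/
theorem cur_pair [IsFF ℂ L] {A B : ℂ[X]} (hA : A.Separable) (hB : B.Separable) {n m : ℕ}
    (hn : A.natDegree ≤ n ∧ n ≤ A.natDegree + 1) (hm : B.natDegree ≤ m ∧ m ≤ B.natDegree + 1)
    (h6 : 6 ≤ n) (h5 : 5 ≤ m) (hAB : Movable A B) {x y : L} {D0 : Derivation ℂ L L}
    (hx : D0 x ≠ 0) (hy : D0 y ≠ 0) {Bd : Place ℂ L → Prop}
    (hst : ∀ P, ¬ Bd P → ct A n P x + ct B m P y ≠ 1) : LogGeneralType ℂ L 1 Bd := by
  have hA0 := hA.ne_zero
  have hB0 := hB.ne_zero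
  have tx := trans_of_der hx
  have ty := trans_of_der hy
  have hcx := const_of_eq hx
  have hcy := const_of_eq hy
  have hx0 : x ≠ 0 := fun h0 => hcx 0 (by rw [h0, map_zero])
  have hy0 : y ≠ 0 := fun h0 => hcy 0 (by rw [h0, map_zero])
  have hBy : aeval y B ≠ 0 := fun h0 => ty ⟨_, hB0, h0⟩
  by_cases hall : ∀ P, ¬ Bd P → ct A A.natDegree P x ≠ 1
  · exact cur_one hA ⟨le_rfl, by omega⟩ (by omega) hx hall
  push Not at hall
  obtain ⟨P0, hP0, hc0⟩ := hall
  -- a simple contact at a finite point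
  have hreg : Ge P0 0 x := by
    by_contra hreg
    rw [ct_pole hreg, sub_self, zero_mul] at hc0
    omega
  have hcn : ct A n P0 x = 1 := by
    rw [ct_reg hreg] at hc0 ⊢
    exact hc0
  obtain ⟨h0, D, hD, hD0, -, -⟩ := exists_nice P0 (D := D0) (by
    rintro rfl
    exact hx rfl)
  obtain ⟨a, e, he, hae⟩ := exists_center hD hcx hreg
  have hord := ord_poly_fin P0 hcx hA0 hae (by omega)
  rw [ct_reg hreg] at hc0
  have ha : A.IsRoot a := by
    by_contra h1
    rw [rootMultiplicity_eq_zero h1, Nat.cast_zero, zero_mul] at hord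
    omega
  obtain ⟨A', hA'⟩ := dvd_iff_isRoot.2 ha
  obtain ⟨δ, hδa, hδA, hδB⟩ := hAB a ha
  have hA0' : A' ≠ 0 := by
    rintro rfl
    exact hA0 (by rw [hA', mul_zero])
  have hAx' : aeval x A' ≠ 0 := fun h0 => tx ⟨_, hA0', h0⟩
  have hδA' : ∀ b, A'.IsRoot b → δ b = 0 := by
    intro b hb
    refine hδA b (by rw [hA']; exact root_mul_left_of_isRoot _ hb) ?_
    rintro rfl
    have h1 : A.rootMultiplicity b ≤ 1 := rootMultiplicity_le_one_of_separable hA b
    have h2 := rootMultiplicity_mul (x := b) (p := X - C b) (q := A') (by rwa [← hA'])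
    rw [← hA', rootMultiplicity_X_sub_C_self] at h2
    have h3 := (rootMultiplicity_pos hA0').2 hb
    omega
  -- the extension of the derivation
  obtain ⟨Δ, hΔ⟩ := exists_ext δ tx (alg_of_trans tx)
  have halg : ∀ (P : Place ℂ L) (π : L), P.ord π = 1 →
      Algebra.IsAlgebraic (Algebra.adjoin ℂ {π}) L := fun P π hπ => alg_of_trans (trans_of_ord hπ)
  -- it does not vanish
  have hsig : sig Δ D0 x y ≠ 0 := by
    obtain ⟨Δ', hΔ', hs⟩ := exists_lift hD (halg P0) hΔ
    have h1 : sig Δ' D x y ≠ 0 := by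
      refine sig_ne hD hΔ' hδa (Or.inr (by omega)) ?_
      by_cases hyr : Ge P0 0 y
      · left
        have h2 := hst P0 hP0
        rw [hcn, ct_reg hyr] at h2
        obtain ⟨b, e', he', hbe⟩ := exists_center hD hcy hyr
        have hord' := ord_poly_fin P0 hcy hB0 hbe (by omega)
        have hb : B.IsRoot b := by
          by_contra h3
          rw [rootMultiplicity_eq_zero h3, Nat.cast_zero, zero_mul] at hord'
          omega
        exact ⟨b, hδB b hb, hcy b, by omega⟩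
      · right
        by_contra h2
        exact hyr (Or.inr (by omega))
    rw [hD0, sig_smul, hs]
    refine mul_ne_zero ?_ h1
    rintro rfl
    rw [zero_smul] at hD0
    rw [hD0] at hx
    exact hx rfl
  have key : ∀ (P : Place ℂ L) (D : Derivation ℂ L L), Nice P D → ∀ j : Fin 2,
      Ge P (-2) (sig Δ D x y ^ 2 * ((x - algebraMap ℂ L a) / aeval x A' *
        (y ^ (j : ℕ) / aeval y B))) ∧
      (ct A n P x + ct B m P y ≠ 1 → Ge P 0 (sig Δ D x y ^ 2 *
        ((x - algebraMap ℂ L a) / aeval x A' * (y ^ (j : ℕ) / aeval y B)))) := by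
    intro P D hD j
    obtain ⟨Δ', hΔ', hs⟩ := exists_lift hD (halg P) hΔ
    obtain ⟨τ', h'⟩ := exists_fix hD hΔ' hB hm hδB hcy (j := j) (by have := j.2; omega)
    obtain ⟨τ, h | h⟩ := exists_mov hD hΔ' hA hA' hn hδA' hcx h6
    · rw [hs]
      have h1 := fix_fix h h'
      exact ⟨h1.1.mono (by omega), h1.2⟩
    · rw [hs]
      have h1 := mov_fix h h'
      exact ⟨h1.mono (by omega), fun _ => h1⟩
  have hF : (x - algebraMap ℂ L a) / aeval x A' ≠ 0 := div_ne_zero (sub_ne_zero.2 (hcx a)) hAx'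
  refine curve_lgt Bd (N := 2) (by norm_num) (fun j D => sig Δ D x y ^ 2 *
    ((x - algebraMap ℂ L a) / aeval x A' * (y ^ (j : ℕ) / aeval y B)))
    (fun j c D => ?_) D0 ?_ ty ?_ ?_ ?_
  · rw [sig_smul]
    ring
  · exact mul_ne_zero (pow_ne_zero _ hsig) (mul_ne_zero hF (div_ne_zero (pow_ne_zero _ hy0) hBy))
  · simp only [Fin.val_one, Fin.val_zero, pow_one, pow_zero]
    rw [div_eq_iff (mul_ne_zero (pow_ne_zero _ hsig)
      (mul_ne_zero hF (div_ne_zero one_ne_zero hBy)))]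
    ring
  · intro P D hD j
    exact (key P D hD j).1.mono (by norm_num)
  · intro P hP D hD j
    exact (key P D hD j).2 (hst P hP)

end Pool.Agent.K9h12.VG
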