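import Mathlib
import Pool.Agent.W602.GT.Der

/-!
Derivations of the complex numbers and their extensions to function fields.
-/

set_option autoImplicit false

open Polynomial

namespace Pool.Agent.K9h12.VG

section coeffs

variable {A : Type} [CommRing A]

/-- the derivation acting on the coefficients -/
noncomputable def cf (δ : Derivation ℤ A A) : Derivation ℤ A[X] A[X] :=
  letI : Differential A := ⟨δ⟩
  Differential.mapCoeffs

theorem coeff_cf (δ : Derivation ℤ A A) (p : A[X]) (i : ℕ) :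
    (cf δ p).coeff i = δ (p.coeff i) := by
  let _ : Differential A := ⟨δ⟩
  exact Differential.coeff_mapCoeffs p i

theorem cf_C (δ : Derivation ℤ A A) (c : A) : cf δ (C c) = C (δ c) := by
  let _ : Differential A := ⟨δ⟩
  exact Differential.mapCoeffs_C c

theorem cf_X (δ : Derivation ℤ A A) : cf δ X = 0 := by
  let _ : Differential A := ⟨δ⟩
  exact Differential.mapCoeffs_X

theorem cf_X_pow_mul (δ : Derivation ℤ A A) (n : ℕ) (p : A[X]) :
    cf δ (X ^ n * p) = X ^ n * cf δ p := by
  rw [Derivation.leibniz, Derivation.leibniz_pow, cf_X]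
  simp

variable {L : Type} [Field L] [Algebra A L]

/-- the chain rule for polynomials -/
theorem der_aeval {δ : Derivation ℤ A A} {Δ : Derivation ℤ L L}
    (hΔ : ∀ c, Δ (algebraMap A L c) = algebraMap A L (δ c)) (x : L) (p : A[X]) :
    Δ (aeval x p) = aeval x (cf δ p) + aeval x (derivative p) * Δ x := by
  induction p using Polynomial.induction_on with
  | C c => rw [aeval_C, hΔ, cf_C, aeval_C, derivative_C, map_zero, zero_mul, add_zero]
  | add p q hp hq =>
    simp only [map_add, hp, hq]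
    ring
  | monomial n c ih =>
    rw [pow_succ, ← mul_assoc]
    generalize C c * X ^ n = p at ih
    have h1 : cf δ (p * X) = X * cf δ p := by
      rw [Derivation.leibniz, cf_X, smul_zero, zero_add, smul_eq_mul]
    rw [h1, derivative_mul, derivative_X, map_mul, Derivation.leibniz, ih]
    simp only [map_add, map_mul, aeval_X, smul_eq_mul, mul_one]
    ring

end coeffs

variable {L : Type} [Field L] [Algebra ℂ L]

theorem alg_poly {t : L} (halg : Algebra.IsAlgebraic (Algebra.adjoin ℂ {t}) L) :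
    letI : Algebra ℂ[X] L := ((aeval t : ℂ[X] →ₐ[ℂ] L) : ℂ[X] →+* L).toAlgebra
    Algebra.IsAlgebraic ℂ[X] L := by
  let _ : Algebra ℂ[X] L := ((aeval t : ℂ[X] →ₐ[ℂ] L) : ℂ[X] →+* L).toAlgebra
  have hmem : ∀ p : ℂ[X], aeval t p ∈ Algebra.adjoin ℂ {t} := fun p => by
    rw [Algebra.adjoin_singleton_eq_range_aeval]
    exact ⟨p, rfl⟩
  refine Algebra.IsAlgebraic.of_ringHom_of_comp_eq
    (f := ((aeval t : ℂ[X] →ₐ[ℂ] L).codRestrict (Algebra.adjoin ℂ {t}) hmem : ℂ[X] →+*
      Algebra.adjoin ℂ {t}))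
    (g := RingHom.id L) ?_ Function.injective_id ?_
  · rintro ⟨z, hz⟩
    have hz' := hz
    rw [Algebra.adjoin_singleton_eq_range_aeval] at hz'
    obtain ⟨p, hp⟩ := hz'
    exact ⟨p, Subtype.ext hp⟩
  · ext x
    · simp [RingHom.algebraMap_toAlgebra]
    · simp [RingHom.algebraMap_toAlgebra]

/-- derivations of the constants extend to function fields of one variable -/
theorem exists_ext (δ : Derivation ℤ ℂ ℂ) {t : L} (ht : Transcendental ℂ t)
    (halg : Algebra.IsAlgebraic (Algebra.adjoin ℂ {t}) L) :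
    ∃ Δ : Derivation ℤ L L, ∀ c, Δ (algebraMap ℂ L c) = algebraMap ℂ L (δ c) := by
  have hinj : Function.Injective (aeval t : ℂ[X] →ₐ[ℂ] L) :=
    transcendental_iff_injective.1 ht
  have halg1 := alg_poly halg
  let _ : Algebra ℂ[X] L := ((aeval t : ℂ[X] →ₐ[ℂ] L) : ℂ[X] →+* L).toAlgebra
  have hst : IsScalarTower ℂ ℂ[X] L := IsScalarTower.of_algebraMap_eq' (by
    ext c
    simp [RingHom.algebraMap_toAlgebra])
  have hfs : FaithfulSMul ℂ[X] L := (faithfulSMul_iff_algebraMap_injective _ _).2 hinj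
  let _ : Algebra (FractionRing ℂ[X]) L := FractionRing.liftAlgebra ℂ[X] L
  have hst2 : IsScalarTower ℂ[X] (FractionRing ℂ[X]) L := inferInstance
  have halg2 : Algebra.IsAlgebraic (FractionRing ℂ[X]) L :=
    (IsFractionRing.comap_isAlgebraic_iff (A := ℂ[X]) (K := FractionRing ℂ[X]) (C := L)).1 halg1
  have hchar : CharZero (FractionRing ℂ[X]) := inferInstance
  have hsep : Algebra.IsSeparable (FractionRing ℂ[X]) L := inferInstance
  have h1 : Algebra.FormallyEtale (FractionRing ℂ[X]) L :=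
    Algebra.FormallyEtale.of_isSeparable _ _
  have h2 : Algebra.FormallyEtale ℂ[X] (FractionRing ℂ[X]) :=
    Algebra.FormallyEtale.of_isLocalization (nonZeroDivisors ℂ[X])
  have h3 : Algebra.FormallyEtale ℂ[X] L :=
    Algebra.FormallyEtale.comp ℂ[X] (FractionRing ℂ[X]) L
  let e := KaehlerDifferential.tensorKaehlerEquivOfFormallyEtale ℤ ℂ[X] L
  let d : Derivation ℤ ℂ[X] L := (Algebra.linearMap ℂ[X] L).compDer (cf δ)
  let l : Ω[ℂ[X]⁄ℤ] →ₗ[ℂ[X]] L := d.liftKaehlerDifferential
  let Λ : Ω[L⁄ℤ] →ₗ[L] L := (LinearMap.liftBaseChange L l).comp e.symm.toLinearMap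
  let D : Derivation ℤ L L := Λ.compDer (KaehlerDifferential.D ℤ L)
  refine ⟨D, fun c => ?_⟩
  have h5 : algebraMap ℂ L c = algebraMap ℂ[X] L (C c) := by
    simp [RingHom.algebraMap_toAlgebra]
  change Λ (KaehlerDifferential.D ℤ L (algebraMap ℂ L c)) = _
  change LinearMap.liftBaseChange L l (e.symm (KaehlerDifferential.D ℤ L (algebraMap ℂ L c))) = _
  rw [h5, KaehlerDifferential.tensorKaehlerEquivOfFormallyEtale_symm_D_algebraMap]
  simp [l, d, cf_C, RingHom.algebraMap_toAlgebra]

/-- a derivation of the complex numbers moving one of a family of independent numbers -/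
theorem exists_move {F : Type} [Field F] [CharZero F] [Algebra F ℂ] {ι : Type} {a : ι → ℂ}
    (ha : AlgebraicIndependent F a) (i : ι) :
    ∃ δ : Derivation ℤ ℂ ℂ, δ (a i) = 1 ∧ (∀ j, j ≠ i → δ (a j) = 0) ∧
      ∀ c : F, δ (algebraMap F ℂ c) = 0 := by
  classical
  obtain ⟨s, hs, hbas⟩ := exists_isTranscendenceBasis_superset ha.coe_range
  obtain ⟨D, hD⟩ := Pool.Agent.W602.GT.exists_der (L := F) (K := ℂ) (fun b : s => (b : ℂ)) hbas
    fun b => if (b : ℂ) = a i then 1 else 0
  let δ : Derivation ℤ ℂ ℂ := Derivation.mk' (D : ℂ →+ ℂ).toIntLinearMap fun x y => D.leibniz x y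
  have hδ : ∀ x, δ x = D x := fun x => rfl
  refine ⟨δ, ?_, fun j hj => ?_, fun c => ?_⟩
  · have := hD ⟨a i, hs ⟨i, rfl⟩⟩
    rw [hδ]
    simpa using this
  · have := hD ⟨a j, hs ⟨j, rfl⟩⟩
    have hne : a j ≠ a i := fun h => hj (ha.injective h)
    rw [hδ]
    simpa [hne] using this
  · rw [hδ]
    exact D.map_algebraMap c

end Pool.Agent.K9h12.VG
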