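import Pool.Agent.K9h12.VG.Der
import Pool.Agent.K9h12.SH.Cur

/-!
The regularity of local lifts of derivations of the constants.
-/

set_option autoImplicit false

open FF Polynomial

namespace Pool.Agent.K9h12.VG

open Pool.Agent.W603.LV Pool.Agent.W602.GT Pool.Agent.K9h12.SH

variable {L : Type} [Field L] [Algebra ℂ L] {P : Place ℂ L}

/-- expansions in powers of a uniformizer -/
theorem approx (hres : ∀ f, Ge P 0 f → ∃ c : ℂ, Ge P 1 (f - algebraMap ℂ L c)) {π : L}
    (hπ : P.ord π = 1) {f : L} (hf : Ge P 0 f) (N : ℕ) :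
    ∃ S : ℂ[X], Ge P N (f - aeval π S) := by
  have hπ0 : π ≠ 0 := by
    rintro rfl
    rw [P.ord_zero] at hπ; omega
  induction N with
  | zero => exact ⟨0, by simpa using hf⟩
  | succ N ih =>
    obtain ⟨S, hS⟩ := ih
    have h1 : P.ord (π ^ N) = N := by rw [P.ord_pow, hπ, mul_one]
    have h2 : Ge P 0 ((f - aeval π S) / π ^ N) := by
      have := ge_div (pow_ne_zero N hπ0) hS
      rwa [h1, sub_self] at this
    obtain ⟨c, hc⟩ := hres _ h2
    refine ⟨S + C c * X ^ N, ?_⟩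
    have h3 : f - aeval π (S + C c * X ^ N) =
        π ^ N * ((f - aeval π S) / π ^ N - algebraMap ℂ L c) := by
      simp only [map_add, map_mul, aeval_C, map_pow, aeval_X]
      field_simp
      ring
    rw [h3]
    have h4 := (ge_ord P (π ^ N)).mul hc
    rw [h1] at h4
    exact h4.mono (by push_cast; omega)

/-- polynomials are continuous -/
theorem ge_sub {A : Type} [CommRing A] [Algebra A L] (hA : ∀ a : A, Ge P 0 (algebraMap A L a))
    {f g : L} (hf : Ge P 0 f) (hg : Ge P 0 g) {N : ℤ} (hfg : Ge P N (f - g)) (F : A[X]) :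
    Ge P 0 (aeval f F) ∧ Ge P N (aeval f F - aeval g F) := by
  induction F using Polynomial.induction_on with
  | C a =>
    rw [aeval_C, aeval_C, sub_self]
    exact ⟨hA a, Ge.zero⟩
  | add p q hp hq =>
    refine ⟨by rw [map_add]; exact hp.1.add hq.1, ?_⟩
    rw [show aeval f (p + q) - aeval g (p + q) =
      (aeval f p - aeval g p) + (aeval f q - aeval g q) by rw [map_add, map_add]; ring]
    exact hp.2.add hq.2
  | monomial n a ih =>
    rw [pow_succ, ← mul_assoc]
    generalize C a * X ^ n = p at ih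
    rw [map_mul, map_mul, aeval_X, aeval_X]
    refine ⟨by simpa using ih.1.mul hf, ?_⟩
    rw [show aeval f p * f - aeval g p * g =
      (aeval f p - aeval g p) * g + aeval f p * (f - g) by ring]
    have h1 := ih.2.mul hg
    have h2 := ih.1.mul hfg
    rw [add_zero] at h1
    rw [zero_add] at h2
    exact h1.add h2

/-- **Local lifts are regular.** -/
theorem lift_reg (hres : ∀ f, Ge P 0 f → ∃ c : ℂ, Ge P 1 (f - algebraMap ℂ L c)) {π : L}
    (hπ : P.ord π = 1) (halg : Algebra.IsAlgebraic (Algebra.adjoin ℂ {π}) L)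
    {δ : Derivation ℤ ℂ ℂ} {Δ : Derivation ℤ L L}
    (hΔ : ∀ c, Δ (algebraMap ℂ L c) = algebraMap ℂ L (δ c)) (hΔπ : Δ π = 0) {f : L}
    (hf : Ge P 0 f) : Ge P 0 (Δ f) := by
  classical
  have hπ0 : π ≠ 0 := by
    rintro rfl
    rw [P.ord_zero] at hπ; omega
  have hπc : ∀ c : ℂ, π ≠ algebraMap ℂ L c := by
    rintro c rfl
    by_cases hc : c = 0
    · rw [hc, map_zero] at hπ0
      exact hπ0 rfl
    · rw [P.ord_const hc] at hπ
      omega
  have hπt : Transcendental ℂ π := by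
    intro h
    obtain ⟨c, hc⟩ := const_of_algebraic h
    exact hπc c hc
  have hpoly : ∀ p : ℂ[X], Ge P 0 (aeval π p) := fun p =>
    (ge_sub (A := ℂ) (fun a => Ge.const a) (Or.inr (by omega : (0 : ℤ) ≤ P.ord π))
      (Or.inr (by omega : (0 : ℤ) ≤ P.ord π)) (N := 0) (by rw [sub_self]; exact Ge.zero) p).1
  have hΔp : ∀ p : ℂ[X], Δ (aeval π p) = aeval π (cf δ p) := fun p => by
    rw [der_aeval hΔ, hΔπ, mul_zero, add_zero]
  -- the derivation preserves the order of polynomials in the uniformizer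
  have hord : ∀ (N : ℕ) (G : ℂ[X]), Ge P N (aeval π G) → Ge P N (Δ (aeval π G)) := by
    intro N G hG
    by_cases hG0 : G = 0
    · rw [hG0, map_zero, map_zero]; exact Ge.zero
    have h1 := ord_poly_fin P hπc hG0 (c := 0) (ρ := P.ord π) (by rw [map_zero, sub_zero]) (by omega)
    have h2 : (N : ℤ) ≤ G.rootMultiplicity 0 := by
      have h3 := hG.resolve_left fun h0 => hπt ⟨G, hG0, h0⟩
      rw [h1, hπ, mul_one] at h3
      exact h3
    have h3 : X ^ N ∣ G := by
      have h4 := (le_rootMultiplicity_iff hG0 (a := 0) (n := N)).1 (by exact_mod_cast h2)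
      simpa using h4
    obtain ⟨G', rfl⟩ := h3
    rw [hΔp, cf_X_pow_mul, map_mul, map_pow, aeval_X]
    have h4 := (ge_ord P (π ^ N)).mul (hpoly (cf δ G'))
    rw [P.ord_pow, hπ] at h4
    exact h4.mono (by omega)
  have halg1 := alg_poly halg
  let _ : Algebra ℂ[X] L := ((aeval π : ℂ[X] →ₐ[ℂ] L) : ℂ[X] →+* L).toAlgebra
  have hmap : ∀ p : ℂ[X], algebraMap ℂ[X] L p = aeval π p := fun p => rfl
  have hA : ∀ p : ℂ[X], Ge P 0 (algebraMap ℂ[X] L p) := hpoly
  -- the polynomial of least degree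
  obtain ⟨F, ⟨hF0, hFf⟩, hmin⟩ : ∃ F : ℂ[X][X], (F ≠ 0 ∧ aeval f F = 0) ∧
      ∀ G : ℂ[X][X], G ≠ 0 ∧ aeval f G = 0 → F.natDegree ≤ G.natDegree := by
    obtain ⟨F0, h0⟩ := halg1.isAlgebraic f
    have hex : ∃ n, ∃ F : ℂ[X][X], (F ≠ 0 ∧ aeval f F = 0) ∧ F.natDegree = n := ⟨_, F0, h0, rfl⟩
    obtain ⟨F, h1, h2⟩ := Nat.find_spec hex
    refine ⟨F, h1, fun G hG => ?_⟩
    rw [h2]
    exact Nat.find_min' hex ⟨G, hG, rfl⟩
  have hdeg : F.natDegree ≠ 0 := by
    intro h0
    rw [eq_C_of_natDegree_eq_zero h0, aeval_C, hmap] at hFf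
    have h1 : F.coeff 0 ≠ 0 := by
      intro h2
      apply hF0
      rw [eq_C_of_natDegree_eq_zero h0, h2, C_0]
    exact hπt ⟨_, h1, hFf⟩
  have hFd : aeval f (derivative F) ≠ 0 := by
    intro h0
    have h1 : derivative F ≠ 0 := fun h2 => hdeg (derivative_eq_zero.1 h2)
    have h2 := hmin _ ⟨h1, h0⟩
    have h3 := natDegree_derivative_lt hdeg
    omega
  obtain ⟨B, hB⟩ : ∃ B : ℕ, P.ord (aeval f (derivative F)) = B := by
    have h1 := (ge_sub hA hf hf (N := 0) (by rw [sub_self]; exact Ge.zero) (derivative F)).1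
    exact Int.eq_ofNat_of_zero_le (h1.resolve_left hFd)
  obtain ⟨S, hS⟩ := approx hres hπ hf (B + 1)
  have hΔ' : ∀ p : ℂ[X], Δ (algebraMap ℂ[X] L p) = algebraMap ℂ[X] L (cf δ p) := hΔp
  have hSreg : Ge P 0 (aeval π S) := hpoly S
  -- the relation
  have e1 : aeval f (cf (cf δ) F) + aeval f (derivative F) * Δ f = 0 := by
    rw [← der_aeval hΔ' f F, hFf, map_zero]
  have e2 : Δ (aeval (aeval π S) F) = aeval (aeval π S) (cf (cf δ) F) +
      aeval (aeval π S) (derivative F) * aeval π (cf δ S) := by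
    rw [der_aeval hΔ', hΔp]
  have e3 : aeval (aeval π S) F = aeval π (F.eval S) := by
    rw [show (aeval π S : L) = algebraMap ℂ[X] L S from rfl, aeval_algebraMap_apply, hmap]
    rfl
  have g1 : Ge P (B + 1 : ℕ) (aeval (aeval π S) F) := by
    have h1 := (ge_sub hA hf hSreg hS F).2
    rw [hFf, zero_sub] at h1
    simpa using h1.neg
  have g2 : Ge P (B + 1 : ℕ) (Δ (aeval (aeval π S) F)) := by
    rw [e3] at g1 ⊢
    exact hord _ _ g1
  have g3 : Ge P B (aeval (aeval π S) (derivative F)) := by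
    have h1 := (ge_sub hA hf hSreg hS (derivative F)).2
    have h2 : Ge P B (aeval f (derivative F)) := Or.inr hB.ge
    have h3 := h2.sub (h1.mono (by push_cast; omega : (B : ℤ) ≤ (B + 1 : ℕ)))
    rwa [sub_sub_cancel] at h3
  have g4 : Ge P B (aeval (aeval π S) (cf (cf δ) F)) := by
    have h1 := (g2.mono (by push_cast; omega : (B : ℤ) ≤ (B + 1 : ℕ))).sub (g3.mul (hpoly (cf δ S)) |>.mono
      (by omega : (B : ℤ) ≤ B + 0))
    rw [e2, add_sub_cancel_right] at h1
    exact h1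
  have g5 : Ge P B (aeval f (cf (cf δ) F)) := by
    have h1 := (ge_sub hA hf hSreg hS (cf (cf δ) F)).2
    have h2 := g4.add (h1.mono (by push_cast; omega : (B : ℤ) ≤ (B + 1 : ℕ)))
    rwa [add_sub_cancel] at h2
  have e4 : Δ f = -(aeval f (cf (cf δ) F)) / aeval f (derivative F) := by
    field_simp
    linear_combination e1
  rw [e4]
  have h1 := ge_div hFd g5.neg
  rwa [hB, sub_self] at h1

end Pool.Agent.K9h12.VG
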