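import Pool.Agent.K9h12.VG.High
import Pool.Agent.K9h12.FR.Frm

/-!
Families of rational functions without simple contacts, and the transfer to quasi-projective
varieties.
-/

set_option autoImplicit false

open Polynomial Pool.Agent.K9h12.FR

namespace Pool.Agent.K9h12.VG

open Pool.Agent.W603.LV Pool.Agent.W602.GT

/-- The rational functions `x i` on the quasi-projective variety `X - D`, with generic point `a`,
have no simple contacts with the sets of roots of the `A i` (in the projective line, infinity being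
counted as a root of `A i` if `n i` is larger than the degree): there are forms `g 0, g 1, ...` of
the same degree with `x i = g (i + 1) / g 0` and a form `G0` which does not vanish on `X` such that
for all points `a'` of `X` over a field `L`, outside `G0 = 0` and `g 0 = 0`, and all places `v` of
`L` whose centre is not in `D`, the values `x' i` of the `x i` at `a'` satisfy: for `i ≠ j`, the sum
of the orders of contact of `x' i` and `x' j` at `v` is not one (if no `A i (x' i)` is zero). -/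
def NoSimpleContact {m : ℕ} (A : Fin m → ℂ[X]) (n : Fin m → ℕ) {N : ℕ} (X D : PSet N) {K : Type}
    [Field K] [Algebra ℂ K] (a : Fin (N + 1) → K) (x : Fin m → K) : Prop :=
  ∃ (δ : ℕ) (g : Fin (m + 1) → MvPolynomial (Fin (N + 1)) ℂ)
    (G0 : MvPolynomial (Fin (N + 1)) ℂ),
    (∀ i, (g i).IsHomogeneous δ) ∧ (∃ E : ℕ, G0.IsHomogeneous E) ∧
    MvPolynomial.aeval a G0 ≠ 0 ∧ MvPolynomial.aeval a (g 0) ≠ 0 ∧
    (∀ i, x i = MvPolynomial.aeval a (g i.succ) / MvPolynomial.aeval a (g 0)) ∧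
    ∀ (L : Type) [Field L] [Algebra ℂ L] (a' : Fin (N + 1) → L) (x' : Fin m → L),
      (∀ i, x' i = MvPolynomial.aeval a' (g i.succ) / MvPolynomial.aeval a' (g 0)) →
      X.Mem a' → MvPolynomial.aeval a' G0 ≠ 0 → MvPolynomial.aeval a' (g 0) ≠ 0 →
      ∀ v : FF.Place ℂ L, ¬ CentreIn D a' v → (∀ i, aeval (x' i) (A i) ≠ 0) →
        ∀ i j, i ≠ j → ct (A i) (n i) v (x' i) + ct (A j) (n j) v (x' j) ≠ 1

/-- the order of a polynomial at a place modulo `r` -/
theorem ord_mod {L : Type} [Field L] [Algebra ℂ L] (v : FF.Place ℂ L) {A : ℂ[X]} {n k r : ℕ}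
    (hn : A.natDegree ≤ n ∧ n ≤ A.natDegree + 1) (hr : n = A.natDegree ↔ r ∣ k * A.natDegree)
    (hk : ¬ r ∣ k) {x : L} (hx : aeval x A ≠ 0) : 0 ≤ ct A n v x ∧
      (ct A n v x = 0 → (r : ℤ) ∣ k * v.ord (aeval x A)) ∧
      (ct A n v x = 1 → ¬ (r : ℤ) ∣ k * v.ord (aeval x A)) := by
  by_cases hreg : Ge v 0 x
  · rw [ct_reg hreg]
    have h0 : 0 ≤ v.ord (aeval x A) :=
      (ge_sub (A := ℂ) (fun a => Ge.const a) hreg hreg (N := 0) (by
        rw [sub_self]; exact Ge.zero) A).1.resolve_left hx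
    refine ⟨h0, fun h => by rw [h, mul_zero]; exact dvd_zero _, fun h => ?_⟩
    rw [h, mul_one]
    exact fun h1 => hk (by exact_mod_cast h1)
  · rw [ct_pole hreg]
    have hxc : ∀ c : ℂ, x ≠ algebraMap ℂ L c := by
      rintro c rfl
      exact hreg (Ge.const c)
    obtain ⟨ρ, hρ⟩ : ∃ ρ, v.ord x = -ρ := ⟨-v.ord x, by ring⟩
    have hρ0 : 0 < ρ := by
      by_contra h1
      exact hreg (Or.inr (by omega))
    have hA0 : A ≠ 0 := by
      rintro rfl
      exact hx (map_zero _)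
    rw [Pool.Agent.K9h12.SH.ord_poly_inf v hxc hA0 hρ hρ0, hρ, neg_neg]
    rcases (by omega : n = A.natDegree ∨ n = A.natDegree + 1) with h | h
    · have h1 : (r : ℤ) ∣ (k : ℤ) * A.natDegree := by exact_mod_cast hr.1 h
      rw [h, sub_self, zero_mul]
      refine ⟨le_rfl, fun _ => ?_, fun h2 => by omega⟩
      rw [mul_neg, ← mul_assoc]
      exact (h1.mul_right ρ).neg_right
    · have h1 : ¬ (r : ℤ) ∣ (k : ℤ) * A.natDegree := by
        intro h2
        have h3 := hr.2 (by exact_mod_cast h2)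
        omega
      rw [h]
      push_cast
      rw [add_sub_cancel_left, one_mul]
      refine ⟨hρ0.le, fun h2 => by omega, fun h2 => ?_⟩
      rw [h2, mul_one, mul_neg, dvd_neg]
      exact h1

/-- If for `i ≠ j` a suitable product of powers of `A i (x i)` and `A j (x j)` is an `r`-th power,
then there are no simple contacts. -/
theorem noSimple_of_roots {m : ℕ} {A : Fin m → ℂ[X]} {n : Fin m → ℕ}
    (hn : ∀ i, (A i).natDegree ≤ n i ∧ n i ≤ (A i).natDegree + 1) {N : ℕ} {X D : PSet N}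
    {K : Type} [Field K] [Algebra ℂ K] {a : Fin (N + 1) → K} (hK : X.FunctionField K a)
    {x : Fin m → K} (h : ∀ i j, i ≠ j → ∃ (w : K) (r k l : ℕ), ¬ r ∣ k ∧ ¬ r ∣ l ∧
      (n i = (A i).natDegree ↔ r ∣ k * (A i).natDegree) ∧
      (n j = (A j).natDegree ↔ r ∣ l * (A j).natDegree) ∧
      w ^ r = aeval (x i) (A i) ^ k * aeval (x j) (A j) ^ l) :
    NoSimpleContact A n X D a x := by
  classical
  have h' : ∀ p : Fin m × Fin m, ∃ (w : K) (r k l : ℕ), p.1 ≠ p.2 → ¬ r ∣ k ∧ ¬ r ∣ l ∧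
      (n p.1 = (A p.1).natDegree ↔ r ∣ k * (A p.1).natDegree) ∧
      (n p.2 = (A p.2).natDegree ↔ r ∣ l * (A p.2).natDegree) ∧
      w ^ r = aeval (x p.1) (A p.1) ^ k * aeval (x p.2) (A p.2) ^ l := by
    intro p
    by_cases hp : p.1 = p.2
    · exact ⟨0, 0, 0, 0, fun h => absurd hp h⟩
    · obtain ⟨w, r, k, l, hw⟩ := h p.1 p.2 hp
      exact ⟨w, r, k, l, fun _ => hw⟩
  choose w r k l hw using h'
  let e := Fintype.equivFin (Fin m × Fin m)
  obtain ⟨δ, g, hg, hg0, hgw⟩ := exists_common hK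
    (Fin.append x fun i : Fin (Fintype.card (Fin m × Fin m)) => w (e.symm i))
  have ex : ∀ i : Fin m, x i = MvPolynomial.aeval a (g (Fin.castAdd _ i).succ) /
      MvPolynomial.aeval a (g 0) := fun i => by
    rw [← hgw, Fin.append_left]
  have ew : ∀ p, w p = MvPolynomial.aeval a (g (Fin.natAdd m (e p)).succ) /
      MvPolynomial.aeval a (g 0) := fun p => by
    rw [← hgw, Fin.append_right, Equiv.symm_apply_apply]
  refine ⟨δ, Fin.cons (g 0) fun i => g (Fin.castAdd _ i).succ, 1, ?_,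
    ⟨0, MvPolynomial.isHomogeneous_one _ _⟩, by simp, by rw [Fin.cons_zero]; exact hg0, fun i => ?_,
    ?_⟩
  · intro i
    refine Fin.cases ?_ (fun i => ?_) i
    · rw [Fin.cons_zero]; exact hg 0
    · rw [Fin.cons_succ]; exact hg _
  · rw [Fin.cons_succ, Fin.cons_zero]
    exact ex i
  · intro L _ _ a' x' hx' ha' _ hg0' v _ hne i j hij
    simp only [Fin.cons_succ, Fin.cons_zero] at hx' hg0'
    obtain ⟨hk, hl, hi, hj, hrel⟩ := hw (i, j) hij
    simp only at hk hl hi hj hrel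
    set w' := MvPolynomial.aeval a' (g (Fin.natAdd m (e (i, j))).succ) /
      MvPolynomial.aeval a' (g 0) with hw'
    let F : MvPolynomial (Fin (m + Fintype.card (Fin m × Fin m))) ℂ :=
      MvPolynomial.X (Fin.natAdd m (e (i, j))) ^ r (i, j) -
      (aeval (MvPolynomial.X (Fin.castAdd _ i)) (A i)) ^ k (i, j) *
      (aeval (MvPolynomial.X (Fin.castAdd _ j)) (A j)) ^ l (i, j)
    have hval : ∀ {M : Type} [Field M] [Algebra ℂ M]
        (z : Fin (m + Fintype.card (Fin m × Fin m)) → M),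
        MvPolynomial.aeval z F = z (Fin.natAdd m (e (i, j))) ^ r (i, j) -
          aeval (z (Fin.castAdd _ i)) (A i) ^ k (i, j) *
          aeval (z (Fin.castAdd _ j)) (A j) ^ l (i, j) := by
      intro M _ _ z
      simp only [F, map_sub, map_mul, map_pow, MvPolynomial.aeval_X]
      rw [← Polynomial.aeval_algHom_apply, ← Polynomial.aeval_algHom_apply,
        MvPolynomial.aeval_X, MvPolynomial.aeval_X]
    have hF : MvPolynomial.aeval (fun i => MvPolynomial.aeval a (g (Fin.succ i)) /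
        MvPolynomial.aeval a (g 0)) F = 0 := by
      rw [hval, ← ex, ← ex, ← ew, hrel, sub_self]
    have hF' := spec_rel hK hg hg0 hF ha' hg0'
    rw [hval, ← hx', ← hx', ← hw'] at hF'
    have hPi := hne i
    have hPj := hne j
    have hord := congrArg v.ord (sub_eq_zero.1 hF')
    rw [v.ord_mul (pow_ne_zero _ hPi) (pow_ne_zero _ hPj), v.ord_pow, v.ord_pow, v.ord_pow] at hord
    obtain ⟨p1, p2, p3⟩ := ord_mod v (hn i) hi hk hPi
    obtain ⟨q1, q2, q3⟩ := ord_mod v (hn j) hj hl hPj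
    intro hone
    have hdvd : (r (i, j) : ℤ) ∣ k (i, j) * v.ord (aeval (x' i) (A i)) +
        l (i, j) * v.ord (aeval (x' j) (A j)) := ⟨_, hord.symm⟩
    rcases (by omega : (ct (A i) (n i) v (x' i) = 1 ∧ ct (A j) (n j) v (x' j) = 0) ∨
      (ct (A i) (n i) v (x' i) = 0 ∧ ct (A j) (n j) v (x' j) = 1)) with ⟨h1, h2⟩ | ⟨h1, h2⟩
    · exact p3 h1 ((dvd_add_left (q2 h2)).1 hdvd)
    · exact q3 h2 ((dvd_add_right (p2 h1)).1 hdvd)

/-- **The transfer.** -/
theorem transfer {n N : ℕ} {X D : PSet N}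
    {g : Fin (n + 1) → MvPolynomial (Fin (N + 1)) ℂ} {δ : ℕ} (hg : ∀ i, (g i).IsHomogeneous δ)
    (C : ∀ (L : Type) [Field L] [Algebra ℂ L], FF.Place ℂ L → (Fin n → L) → Prop)
    {G0 : MvPolynomial (Fin (N + 1)) ℂ} (hG0 : ∃ E : ℕ, G0.IsHomogeneous E)
    {H : MvPolynomial (Fin n) ℂ}
    (hC : ∀ (L : Type) [Field L] [Algebra ℂ L] (a : Fin (N + 1) → L), X.Mem a →
      MvPolynomial.aeval a G0 ≠ 0 → MvPolynomial.aeval a (g 0) ≠ 0 →
      MvPolynomial.aeval (fun i : Fin n => MvPolynomial.aeval a (g i.succ) /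
        MvPolynomial.aeval a (g 0)) H ≠ 0 → ∀ P : FF.Place ℂ L, ¬ CentreIn D a P →
      C L P fun i => MvPolynomial.aeval a (g i.succ) / MvPolynomial.aeval a (g 0))
    (halg : ∀ (L : Type) [Field L] [Algebra ℂ L] (d : ℕ) (x : Fin n → L)
      (Bd : FF.Place ℂ L → Prop), Algebra.EssFiniteType ℂ L → 0 < d → Algebra.trdeg ℂ L = d →
      Algebra.IsAlgebraic (IntermediateField.adjoin ℂ (Set.range x)) L →
      MvPolynomial.aeval x H ≠ 0 → (∀ P, ¬ Bd P → C L P x) → LogGeneralType ℂ L d Bd)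
    {K : Type} [Field K] [Algebra ℂ K] {a : Fin (N + 1) → K} (hK : X.FunctionField K a)
    (hD : ¬ D.Mem a) (hG0a : MvPolynomial.aeval a G0 ≠ 0) (hg0 : MvPolynomial.aeval a (g 0) ≠ 0)
    (hKalg : Algebra.IsAlgebraic (IntermediateField.adjoin ℂ
      (Set.range fun i : Fin n => MvPolynomial.aeval a (g i.succ) /
        MvPolynomial.aeval a (g 0))) K)
    (hHa : MvPolynomial.aeval (fun i : Fin n => MvPolynomial.aeval a (g i.succ) /
        MvPolynomial.aeval a (g 0)) H ≠ 0)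
    {d : ℕ} (hd : 0 < d) (htr : Algebra.trdeg ℂ K = d) :
    LogGeneralType ℂ K d (CentreIn D a) ∧
      ∃ G : MvPolynomial (Fin (N + 1)) ℂ, (∃ E : ℕ, G.IsHomogeneous E) ∧
        (∃ u : Fin (N + 1) → ℂ, (X.Mem u ∧ ¬ D.Mem u) ∧ MvPolynomial.eval u G ≠ 0) ∧
        LangOff X D G := by
  classical
  choose Dg mm c hrel using fun i j => exists_rel hg hK hg0 hKalg i j
  let H' : MvPolynomial (Fin (n + 1)) ℂ :=
    Pool.Agent.TH152.HY.Hy 0 (MvPolynomial.rename Fin.succ H)
      (MvPolynomial.rename Fin.succ H).totalDegree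
  let R : MvPolynomial (Fin (n + 1)) ℂ :=
    (∏ i : Fin (N + 1), ∏ j : Fin (N + 1), c i j (mm i j)) * (H' * MvPolynomial.X 0)
  let Q : MvPolynomial (Fin (N + 1)) ℂ := G0 * MvPolynomial.aeval g R
  obtain ⟨E, hRh⟩ : ∃ E, R.IsHomogeneous E :=
    ⟨_, (MvPolynomial.IsHomogeneous.prod _ _ _ fun i _ =>
      MvPolynomial.IsHomogeneous.prod _ _ _ fun j _ =>
      (hrel i j).1.hom _ le_rfl).mul ((Pool.Agent.TH152.HY.Hy_hom 0 _ le_rfl).mul
      (MvPolynomial.isHomogeneous_X _ _))⟩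
  obtain ⟨E0, hE0⟩ := hG0
  have hQh : ∃ E, Q.IsHomogeneous E := ⟨_, hE0.mul (bind_hom hg hRh)⟩
  have hH' : ∀ {L : Type} [Field L] [Algebra ℂ L] (b : Fin (n + 1) → L), b 0 ≠ 0 →
      (MvPolynomial.aeval b H' ≠ 0 ↔
        MvPolynomial.aeval (fun i : Fin n => b i.succ / b 0) H ≠ 0) := by
    intro L _ _ b hb
    have h1 := Pool.Agent.TH152.HY.Hy_field b hb (MvPolynomial.rename Fin.succ H) le_rfl
    have h2 : MvPolynomial.aeval (fun j => b j / b 0) (MvPolynomial.rename Fin.succ H) =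
        MvPolynomial.aeval (fun i : Fin n => b i.succ / b 0) H := by
      rw [MvPolynomial.aeval_rename]
      rfl
    rw [h2] at h1
    rw [show MvPolynomial.aeval b H' = _ from h1]
    simp [hb]
  have hsplit : ∀ {L : Type} [Field L] [Algebra ℂ L] (y : Fin (N + 1) → L),
      MvPolynomial.aeval y Q ≠ 0 →
      MvPolynomial.aeval y G0 ≠ 0 ∧ MvPolynomial.aeval y (g 0) ≠ 0 ∧
      (∀ i j, MvPolynomial.aeval (fun i => MvPolynomial.aeval y (g i)) (c i j (mm i j)) ≠ 0) ∧
      MvPolynomial.aeval (fun i : Fin n => MvPolynomial.aeval y (g i.succ) /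
        MvPolynomial.aeval y (g 0)) H ≠ 0 := by
    intro L _ _ y hy
    simp only [Q, map_mul] at hy
    obtain ⟨h1, h2⟩ := mul_ne_zero_iff.1 hy
    rw [aeval_bind] at h2
    simp only [R, map_mul, map_prod, MvPolynomial.aeval_X] at h2
    obtain ⟨h3, h4⟩ := mul_ne_zero_iff.1 h2
    obtain ⟨h5, h6⟩ := mul_ne_zero_iff.1 h4
    refine ⟨h1, h6, fun i j h0 => h3 ?_, ?_⟩
    · rw [Finset.prod_eq_zero (Finset.mem_univ i) (Finset.prod_eq_zero (Finset.mem_univ j) h0)]
    · exact (hH' (fun i => MvPolynomial.aeval y (g i)) h6).1 h5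
  have hQa : MvPolynomial.aeval a Q ≠ 0 := by
    simp only [Q, map_mul]
    rw [aeval_bind]
    simp only [R, map_mul, map_prod, MvPolynomial.aeval_X]
    refine mul_ne_zero hG0a (mul_ne_zero ?_ (mul_ne_zero ?_ hg0))
    · exact Finset.prod_ne_zero_iff.mpr fun i _ => Finset.prod_ne_zero_iff.mpr fun j _ =>
        (hrel i j).2
    · exact (hH' (fun i => MvPolynomial.aeval a (g i)) hg0).2 hHa
  -- Lang
  have hLang : LangOff X D Q := by
    intro L _ _ a' d hmem _ hne hgen htr hd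
    obtain ⟨h0, h1, h2, h3⟩ := hsplit a' hne
    refine halg L d _ (CentreIn D a') (ess_of_gen hgen) hd htr ?_ h3
      fun P hP => hC L a' hmem h0 h1 h3 P hP
    set F := IntermediateField.adjoin ℂ
      (Set.range fun i : Fin n => MvPolynomial.aeval a' (g i.succ) /
        MvPolynomial.aeval a' (g 0)) with hF
    have hall : ∀ i j, a' j ≠ 0 → IsAlgebraic F (a' i / a' j) := fun i j haj =>
      ratio_alg (hrel i j).1 hmem haj h1 (h2 i j) F fun k =>
        IntermediateField.subset_adjoin ℂ _ ⟨k, rfl⟩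
    constructor
    intro f
    have hle : IntermediateField.adjoin ℂ {f : L | ∃ i j, a' j ≠ 0 ∧ f = a' i / a' j} ≤
        (algebraicClosure F L).restrictScalars ℂ := by
      rw [IntermediateField.adjoin_le_iff]
      rintro f ⟨i, j, hj, rfl⟩
      exact mem_algebraicClosure_iff.mpr (hall i j hj)
    rw [hgen] at hle
    exact mem_algebraicClosure_iff.mp (hle (IntermediateField.mem_top (x := f)))
  refine ⟨hLang K a d hK.mem hD hQa hK.gen htr hd, Q, hQh, ?_, hLang⟩
  -- a point of `X - D`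
  have h1 : ∃ F ∈ D.eqs, MvPolynomial.aeval a F ≠ 0 := by
    by_contra hcon
    push Not at hcon
    exact hD ⟨hK.mem.1, hcon⟩
  obtain ⟨F, hF, hFab⟩ := h1
  by_contra hcon
  push Not at hcon
  have h3 : MvPolynomial.aeval a (F * Q) = 0 := null (X := X) (fun u hu => by
    rw [map_mul]
    by_cases hFv : MvPolynomial.eval u F = 0
    · rw [hFv, zero_mul]
    · rw [hcon u ⟨hu, fun hd => hFv (by rw [← MvPolynomial.aeval_eq_eval]; exact hd.2 F hF)⟩, mul_zero])
    hK.mem
  rw [map_mul] at h3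
  exact mul_ne_zero hFab hQa h3

/-- **Algebraic hyperbolicity.** -/
theorem main {m : ℕ} {A : Fin m → ℂ[X]} (hA : ∀ i, (A i).Separable) {n : Fin m → ℕ}
    (hn : ∀ i, (A i).natDegree ≤ n i ∧ n i ≤ (A i).natDegree + 1) (h5 : ∀ i, 5 ≤ n i)
    {i0 j0 : Fin m} (hij : i0 ≠ j0) (h6 : 6 ≤ n i0) (hmov : Movable (A i0) (A j0))
    {N : ℕ} {X D : PSet N} {K : Type} [Field K] [Algebra ℂ K] {a : Fin (N + 1) → K}
    (hK : X.FunctionField K a) (hD : ¬ D.Mem a) {d : ℕ} (htr : Algebra.trdeg ℂ K = d)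
    (hd : 0 < d) {x : Fin m → K}
    (halg : Algebra.IsAlgebraic (IntermediateField.adjoin ℂ (Set.range x)) K)
    (hx : ∀ i, aeval (x i) (A i) ≠ 0) (h : NoSimpleContact A n X D a x) :
    LogGeneralType ℂ K d (CentreIn D a) ∧
      ∃ G : MvPolynomial (Fin (N + 1)) ℂ, (∃ E : ℕ, G.IsHomogeneous E) ∧
        (∃ u : Fin (N + 1) → ℂ, (X.Mem u ∧ ¬ D.Mem u) ∧ MvPolynomial.eval u G ≠ 0) ∧
        LangOff X D G := by
  obtain ⟨δ, g, G0, hg, hG0, hG0a, hg0, ex, hns⟩ := h
  have ex' : (fun i : Fin m => MvPolynomial.aeval a (g i.succ) / MvPolynomial.aeval a (g 0)) = x :=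
    funext fun i => (ex i).symm
  let H : MvPolynomial (Fin m) ℂ := ∏ i, aeval (MvPolynomial.X i) (A i)
  have hval : ∀ {L : Type} [Field L] [Algebra ℂ L] (z : Fin m → L),
      MvPolynomial.aeval z H = ∏ i, aeval (z i) (A i) := by
    intro L _ _ z
    simp only [H, map_prod]
    refine Finset.prod_congr rfl fun i _ => ?_
    rw [← Polynomial.aeval_algHom_apply, MvPolynomial.aeval_X]
  have hH : ∀ {L : Type} [Field L] [Algebra ℂ L] (z : Fin m → L),
      MvPolynomial.aeval z H ≠ 0 ↔ ∀ i, aeval (z i) (A i) ≠ 0 := by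
    intro L _ _ z
    rw [hval, Finset.prod_ne_zero_iff]
    simp
  refine transfer hg (fun L _ _ v z => ∀ i j, i ≠ j →
    ct (A i) (n i) v (z i) + ct (A j) (n j) v (z j) ≠ 1) hG0 (H := H) ?_ ?_ hK hD hG0a hg0
    (by rw [ex']; exact halg) (by rw [ex']; exact (hH x).2 hx) hd htr
  · intro L _ _ a' ha' h0 h1 h2 P hP
    exact hns L a' _ (fun i => rfl) ha' h0 h1 P hP ((hH _).1 h2)
  · intro L _ _ d' x' Bd hess hd' htr' halg' hne hst
    exact subv hA hn h5 hij h6 hmov hess hd' htr' halg' ((hH x').1 hne) hst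

end Pool.Agent.K9h12.VG
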