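import Pool.Agent.K9h12.VG.Nsc

/-!
Varieties with functions which meet finite sets of points only together, one of the sets being very
general: log general type and the Lang property.
-/

set_option autoImplicit false

open Polynomial Pool.Agent.K9h12.FR Pool.Agent.K9h12.VG Pool.Agent.W602.GT

namespace Pool.Agent.K9h12.VG.Quotients

/-- **Product-quotient varieties with very general branch points.** Let `A i`, `i < m`, be
polynomials without multiple roots, and let `n i` be the number of the roots of `A i` in the
projective line, infinity being counted or not (it is not if `n i` is the degree, and it is if `n i`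
is the degree plus one). Let all `n i ≥ 5`, and for two indices `i0 ≠ j0` let `n i0 ≥ 6` and let the
roots of `A i0` be algebraically independent over the field generated by the roots of `A j0`.

Let `X - D` be a quasi-projective variety of dimension `d > 0` with function field `K`, and let
`x i`, `i < m`, be elements of `K` such that `K` is algebraic over the field generated by them and
`A i (x i) ≠ 0`. Let the `x i` have no simple contacts with the roots of the `A i`: outside a proper
closed subset the germs of curves in `X - D` which meet the roots of one `A i` with order one meet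
the roots of all `A j`; for example this holds if for `i ≠ j` the field `K` contains an `r`-th root
of `A i (x i) ^ k * A j (x j) ^ l`, where `r` divides neither `k` nor `l`, and infinity is counted as
a root precisely if it is a branch point.

Then `X - D` is of log general type, and all its closed subvarieties of positive dimension which are
not contained in some fixed proper closed subset are of log general type. -/
theorem result {m : ℕ} {A : Fin m → ℂ[X]} {n : Fin m → ℕ} (hA : ∀ i, (A i).Separable)
    (hn : ∀ i, (A i).natDegree ≤ n i ∧ n i ≤ (A i).natDegree + 1) (h5 : ∀ i, 5 ≤ n i)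
    {i0 j0 : Fin m} (hij : i0 ≠ j0) (h6 : 6 ≤ n i0)
    (hgen : AlgebraicIndependent (IntermediateField.adjoin ℚ ((A j0).rootSet ℂ))
      (fun r : (A i0).rootSet ℂ => (r : ℂ)))
    {N : ℕ} {X D : PSet N} {K : Type} [Field K] [Algebra ℂ K] {g : Fin (N + 1) → K}
    (hK : X.FunctionField K g) (hD : ¬ D.Mem g) {d : ℕ} (htr : Algebra.trdeg ℂ K = d) (hd : 0 < d)
    {x : Fin m → K} (halg : Algebra.IsAlgebraic (IntermediateField.adjoin ℂ (Set.range x)) K)
    (hx : ∀ i, aeval (x i) (A i) ≠ 0)
    (h : NoSimpleContact A n X D g x ∨
      ∀ i j, i ≠ j → ∃ (w : K) (r k l : ℕ), ¬ r ∣ k ∧ ¬ r ∣ l ∧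
        (n i = (A i).natDegree ↔ r ∣ k * (A i).natDegree) ∧
        (n j = (A j).natDegree ↔ r ∣ l * (A j).natDegree) ∧
        w ^ r = aeval (x i) (A i) ^ k * aeval (x j) (A j) ^ l) :
    LogGeneralType ℂ K d (CentreIn D g) ∧
      ∃ G : MvPolynomial (Fin (N + 1)) ℂ, (∃ E : ℕ, G.IsHomogeneous E) ∧
        (∃ u : Fin (N + 1) → ℂ, (X.Mem u ∧ ¬ D.Mem u) ∧ MvPolynomial.eval u G ≠ 0) ∧
        LangOff X D G := by
  refine main hA hn h5 hij h6 ?_ hK hD htr hd halg hx ?_
  · intro a ha
    have hmem : ∀ {i : Fin m} {b : ℂ}, (A i).IsRoot b → b ∈ (A i).rootSet ℂ := fun {i b} hb => by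
      rw [mem_rootSet_of_ne (hA i).ne_zero, aeval_def, eval₂_eq_eval_map,
        Algebra.algebraMap_self, map_id]
      exact hb
    obtain ⟨δ, h1, h2, h3⟩ := exists_move hgen ⟨a, hmem ha⟩
    refine ⟨δ, h1, fun b hb hne => h2 ⟨b, hmem hb⟩ fun h => hne (congrArg Subtype.val h), ?_⟩
    intro b hb
    exact h3 ⟨b, IntermediateField.subset_adjoin ℚ _ (hmem hb)⟩
  · rcases h with h | h
    · exact h
    · exact noSimple_of_roots hn hK h

end Pool.Agent.K9h12.VG.Quotients
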